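import Pool.Agent.Helper99.Aff.Four

set_option autoImplicit false
set_option linter.unusedSectionVars false

/-!
# Closure of a set of positions
-/

namespace Pool.Agent.Helper99.Aff

open Finset Classical

variable {V : Type} [Fintype V]

theorem st_add_self (a : V → St) : a + a = 0 := by
  funext u
  have h : ∀ b : ZMod 2, b + b = 0 := by decide
  refine Prod.ext ?_ ?_
  · exact h _
  · exact h _

theorem sm_symmDiff (c c' : Finset (V → St)) : sm (symmDiff c c') = sm c + sm c' := by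
  have h1 : symmDiff c c' = (c \ c') ∪ (c' \ c) := rfl
  have hd : Disjoint (c \ c') (c' \ c) := by
    refine disjoint_left.2 fun x hx hx' => ?_
    rw [mem_sdiff] at hx hx'
    exact hx.2 hx'.1
  have h2 : sm c = ∑ l ∈ c \ c', l + ∑ l ∈ c ∩ c', l := by
    rw [sm, ← sum_inter_add_sum_sdiff c c' (fun l => l), add_comm]
  have h3 : sm c' = ∑ l ∈ c' \ c, l + ∑ l ∈ c ∩ c', l := by
    rw [sm, ← sum_inter_add_sum_sdiff c' c (fun l => l), add_comm, inter_comm]
  rw [h2, h3, sm, h1, sum_union hd]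
  have h4 := st_add_self (∑ l ∈ c ∩ c', l)
  calc ∑ l ∈ c \ c', l + ∑ l ∈ c' \ c, l
      = ∑ l ∈ c \ c', l + ∑ l ∈ c' \ c, l + (∑ l ∈ c ∩ c', l + ∑ l ∈ c ∩ c', l) := by
        rw [h4, add_zero]
    _ = _ := by abel

theorem sm_empty : sm (∅ : Finset (V → St)) = 0 := by simp [sm]

theorem wt_zero (Z : Finset V) : wt (0 : V → St) Z = 0 := by
  rw [wt_eq_zero]; intro u _; rfl

theorem wt_anti (κ : V → St) {Z Z' : Finset V} (h : Z ⊆ Z') : wt κ Z' ≤ wt κ Z := by
  refine card_le_card fun u hu => ?_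
  rw [mem_filter] at hu ⊢
  exact ⟨mem_univ _, fun hz => hu.2.1 (h hz), hu.2.2⟩

theorem wt_le_add (κ : V → St) (Z Q : Finset V) : wt κ Z ≤ wt κ (Z ∪ Q) + Q.card := by
  rw [wt, wt]
  refine (card_le_card (t := (univ.filter (fun u => u ∉ Z ∪ Q ∧ κ u ≠ 0)) ∪ Q) fun u hu => ?_).trans
    (card_union_le _ _)
  rw [mem_filter] at hu
  rw [mem_union, mem_filter, mem_union, not_or]
  by_cases hq : u ∈ Q
  · exact Or.inr hq
  · exact Or.inl ⟨mem_univ _, ⟨hu.2.1, hq⟩, hu.2.2⟩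

theorem wt_add_le (κ κ' : V → St) (Z : Finset V) : wt (κ + κ') Z ≤ wt κ Z + wt κ' Z := by
  rw [wt, wt, wt]
  refine (card_le_card (t := (univ.filter (fun u => u ∉ Z ∧ κ u ≠ 0)) ∪
    (univ.filter (fun u => u ∉ Z ∧ κ' u ≠ 0))) fun u hu => ?_).trans (card_union_le _ _)
  rw [mem_filter] at hu
  rw [mem_union, mem_filter, mem_filter]
  by_cases h : κ u = 0
  · right
    refine ⟨mem_univ _, hu.2.1, fun h' => hu.2.2 ?_⟩
    rw [Pi.add_apply, h, h', add_zero]
  · exact Or.inl ⟨mem_univ _, hu.2.1, h⟩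

theorem wt_add_eq {κ κ' : V → St} {Z : Finset V} (h : wt κ' Z = 0) : wt (κ + κ') Z = wt κ Z := by
  have h' := wt_eq_zero.1 h
  rw [wt, wt]
  congr 1
  ext u
  rw [mem_filter, mem_filter]
  refine and_congr_right fun _ => and_congr_right fun hu => ?_
  rw [Pi.add_apply, h' u hu, add_zero]

/-- all non-empty sums of functionals in `Y` depend on more than `t` positions outside `Z` -/
def Long (t : ℕ) (Z : Finset V) (Y : Finset (V → St)) : Prop :=
  ∀ c ⊆ Y, c.Nonempty → t < wt (sm c) Z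

/-- the traces of the vanishing sums -/
noncomputable def Tr (Y Λ : Finset (V → St)) (Z Q : Finset V) : Finset (Finset (V → St)) :=
  ((Y ∪ Λ).powerset.filter (fun c => wt (sm c) (Z ∪ Q) = 0)).image (fun c => c \ Y)

theorem trace_sub {Y Λ c : Finset (V → St)} (hc : c ⊆ Y ∪ Λ) : c \ Y ⊆ Λ := by
  intro l hl
  rw [mem_sdiff] at hl
  have := hc hl.1
  rw [mem_union] at this
  exact this.resolve_left hl.2

theorem Tr_card (Y Λ : Finset (V → St)) (Z Q : Finset V) : (Tr Y Λ Z Q).card ≤ 2 ^ Λ.card := by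
  rw [← card_powerset]
  refine card_le_card fun τ hτ => ?_
  rw [Tr, mem_image] at hτ
  obtain ⟨c, hc, rfl⟩ := hτ
  rw [mem_filter, mem_powerset] at hc
  exact mem_powerset.2 (trace_sub hc.1)

theorem symmDiff_sub {Y c c' : Finset (V → St)} (h : c ⊆ Y) (h' : c' ⊆ Y) :
    symmDiff c c' ⊆ Y := by
  intro l hl
  rw [mem_symmDiff] at hl
  rcases hl with hl | hl
  · exact h hl.1
  · exact h' hl.1

theorem symmDiff_trace (Y c c' : Finset (V → St)) :
    symmDiff c c' \ Y = symmDiff (c \ Y) (c' \ Y) := by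
  ext l
  simp only [mem_sdiff, mem_symmDiff]
  tauto

theorem closure_step {Y Λ : Finset (V → St)} {Z : Finset V} {t s₁ q k : ℕ}
    (hL : Long t Z Y) (ht : (q + 1) * s₁ ≤ t) (hk : k ≤ q) {Q : Finset V} (hQ : Q.card ≤ k * s₁)
    (hT : 2 ^ k ≤ (Tr Y Λ Z Q).card) {c : Finset (V → St)} (hc : c ⊆ Y ∪ Λ)
    (h0 : wt (sm c) (Z ∪ Q) ≠ 0) (hs : wt (sm c) (Z ∪ Q) ≤ s₁) :
    ∃ Q' : Finset V, Q'.card ≤ (k + 1) * s₁ ∧ 2 ^ (k + 1) ≤ (Tr Y Λ Z Q').card := by
  set Q' := Q ∪ univ.filter (fun u => u ∉ Z ∪ Q ∧ sm c u ≠ 0) with hQ'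
  have hsub : Z ∪ Q ⊆ Z ∪ Q' := by
    rw [hQ']
    intro u hu
    rw [mem_union] at hu ⊢
    rcases hu with hu | hu
    · exact Or.inl hu
    · exact Or.inr (mem_union_left _ hu)
  have hc0 : wt (sm c) (Z ∪ Q') = 0 := by
    rw [wt_eq_zero]
    intro u hu
    by_contra hn
    refine hu ?_
    rw [hQ']
    by_cases h1 : u ∈ Z ∪ Q
    · rw [mem_union] at h1 ⊢
      rcases h1 with h1 | h1
      · exact Or.inl h1
      · exact Or.inr (mem_union_left _ h1)
    · exact mem_union_right _ (mem_union_right _ (mem_filter.2 ⟨mem_univ _, h1, hn⟩))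
  refine ⟨Q', ?_, ?_⟩
  · refine (card_union_le _ _).trans ?_
    have h1 : (univ.filter (fun u => u ∉ Z ∪ Q ∧ sm c u ≠ 0)).card = wt (sm c) (Z ∪ Q) := rfl
    rw [h1, add_mul, one_mul]
    omega
  · have hA : Tr Y Λ Z Q ⊆ Tr Y Λ Z Q' := by
      intro τ hτ
      rw [Tr, mem_image] at hτ ⊢
      obtain ⟨c1, hc1, rfl⟩ := hτ
      rw [mem_filter] at hc1
      refine ⟨c1, mem_filter.2 ⟨hc1.1, ?_⟩, rfl⟩
      have := wt_anti (sm c1) hsub
      omega
    have hB : (Tr Y Λ Z Q).image (fun τ => symmDiff τ (c \ Y)) ⊆ Tr Y Λ Z Q' := by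
      intro τ hτ
      rw [mem_image] at hτ
      obtain ⟨τ1, hτ1, rfl⟩ := hτ
      rw [Tr, mem_image] at hτ1 ⊢
      obtain ⟨c1, hc1, rfl⟩ := hτ1
      rw [mem_filter, mem_powerset] at hc1
      refine ⟨symmDiff c1 c, mem_filter.2 ⟨mem_powerset.2 (symmDiff_sub hc1.1 hc), ?_⟩,
        symmDiff_trace Y c1 c⟩
      have h1 := wt_anti (sm c1) hsub
      rw [sm_symmDiff, wt_add_eq hc0]
      omega
    have hD : Disjoint (Tr Y Λ Z Q) ((Tr Y Λ Z Q).image (fun τ => symmDiff τ (c \ Y))) := by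
      refine disjoint_left.2 fun τ hτ hτ' => ?_
      rw [mem_image] at hτ'
      obtain ⟨τ1, hτ1, h1⟩ := hτ'
      rw [Tr, mem_image] at hτ hτ1
      obtain ⟨c2, hc2, rfl⟩ := hτ
      obtain ⟨c1, hc1, rfl⟩ := hτ1
      rw [mem_filter, mem_powerset] at hc1 hc2
      set c3 := symmDiff (symmDiff c c1) c2 with hc3
      have h3 : c3 ⊆ Y := by
        intro l hl
        by_contra hn
        have h4 : l ∈ c3 \ Y := mem_sdiff.2 ⟨hl, hn⟩
        have h5 : c3 \ Y = ∅ := by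
          rw [hc3, symmDiff_trace, symmDiff_trace, ← h1, symmDiff_comm (c \ Y) (c1 \ Y),
            symmDiff_self]
          rfl
        rw [h5] at h4
        exact absurd h4 (notMem_empty _)
      have h4 : wt (sm c3) (Z ∪ Q) = wt (sm c) (Z ∪ Q) := by
        rw [hc3, sm_symmDiff, sm_symmDiff, wt_add_eq hc2.2, wt_add_eq hc1.2]
      have h5 : c3.Nonempty := by
        rw [nonempty_iff_ne_empty]
        intro h6
        rw [h6, sm_empty, wt_zero] at h4
        exact h0 h4.symm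
      have h6 := hL c3 h3 h5
      have h7 := wt_le_add (sm c3) Z Q
      have h8 : (k + 1) * s₁ ≤ (q + 1) * s₁ := Nat.mul_le_mul_right _ (by omega)
      have h9 : (k + 1) * s₁ = k * s₁ + s₁ := by ring
      omega
    have hI : ((Tr Y Λ Z Q).image (fun τ => symmDiff τ (c \ Y))).card = (Tr Y Λ Z Q).card := by
      refine card_image_of_injective _ fun a b hab => ?_
      have h1 : symmDiff (symmDiff a (c \ Y)) (c \ Y) = symmDiff (symmDiff b (c \ Y)) (c \ Y) := by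
        have h2 : symmDiff a (c \ Y) = symmDiff b (c \ Y) := hab
        rw [h2]
      rwa [symmDiff_symmDiff_cancel_right, symmDiff_symmDiff_cancel_right] at h1
    have h1 := card_le_card (union_subset hA hB)
    rw [card_union_of_disjoint hD, hI] at h1
    rw [pow_succ]
    omega

/-- the closure -/
theorem closure {Y Λ : Finset (V → St)} {Z : Finset V} {t s₁ q : ℕ} (hΛ : Λ.card ≤ q)
    (hL : Long t Z Y) (ht : (q + 1) * s₁ ≤ t) :
    ∃ Q : Finset V, Q.card ≤ (q + 1) * s₁ ∧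
      ∀ c ⊆ Y ∪ Λ, wt (sm c) (Z ∪ Q) = 0 ∨ s₁ < wt (sm c) (Z ∪ Q) := by
  have key : ∀ k ≤ q + 1, ∃ Q : Finset V, Q.card ≤ k * s₁ ∧
      ((∀ c ⊆ Y ∪ Λ, wt (sm c) (Z ∪ Q) = 0 ∨ s₁ < wt (sm c) (Z ∪ Q)) ∨
        2 ^ k ≤ (Tr Y Λ Z Q).card) := by
    intro k
    induction k with
    | zero =>
      intro _
      refine ⟨∅, by simp, Or.inr ?_⟩
      rw [pow_zero]
      refine card_pos.2 ⟨∅, ?_⟩
      rw [Tr, mem_image]
      exact ⟨∅, mem_filter.2 ⟨empty_mem_powerset _, by rw [sm_empty, wt_zero]⟩, by simp⟩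
    | succ k ih =>
      intro hk
      obtain ⟨Q, hQ, h⟩ := ih (by omega)
      rcases h with h | h
      · refine ⟨Q, hQ.trans (Nat.mul_le_mul_right _ (by omega)), Or.inl h⟩
      · by_cases hg : ∀ c ⊆ Y ∪ Λ, wt (sm c) (Z ∪ Q) = 0 ∨ s₁ < wt (sm c) (Z ∪ Q)
        · exact ⟨Q, hQ.trans (Nat.mul_le_mul_right _ (by omega)), Or.inl hg⟩
        · push Not at hg
          obtain ⟨c, hc, h0, hs⟩ := hg
          obtain ⟨Q', h1, h2⟩ := closure_step hL ht (by omega) hQ h hc h0 hs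
          exact ⟨Q', h1, Or.inr h2⟩
  obtain ⟨Q, hQ, h⟩ := key (q + 1) le_rfl
  rcases h with h | h
  · exact ⟨Q, hQ, h⟩
  · exfalso
    have h1 := Tr_card Y Λ Z Q
    have h2 : 2 ^ Λ.card ≤ 2 ^ q := Nat.pow_le_pow_right (by norm_num) hΛ
    have h3 : 2 ^ q < 2 ^ (q + 1) := Nat.pow_lt_pow_right (by norm_num) (by omega)
    omega

/-- the error -/
theorem err_bound {Y Λ : Finset (V → St)} {Z Q : Finset V} {t s₁ s₂ q y : ℕ} {ρ : ℝ}
    (hρ : 0 ≤ ρ) (hρ1 : ρ ≤ 1) (hΛ : Λ.card ≤ q) (hY : Y.card ≤ y) (hL : Long t Z Y)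
    (ht : Q.card + 2 * s₂ ≤ t)
    (hQ : ∀ c ⊆ Y ∪ Λ, wt (sm c) (Z ∪ Q) = 0 ∨ s₁ < wt (sm c) (Z ∪ Q)) :
    ∑ c ∈ (Y ∪ Λ).powerset.filter (fun c => wt (sm c) (Z ∪ Q) ≠ 0), ρ ^ wt (sm c) (Z ∪ Q) ≤
      2 ^ q * ρ ^ s₁ + 2 ^ (y + q) * ρ ^ s₂ := by
  set A := (Y ∪ Λ).powerset.filter (fun c => wt (sm c) (Z ∪ Q) ≠ 0) with hA
  rw [← sum_filter_add_sum_filter_not A (fun c => wt (sm c) (Z ∪ Q) ≤ s₂)]
  refine add_le_add ?_ ?_
  · refine (sum_le_card_nsmul _ _ (ρ ^ s₁) fun c hc => ?_).trans ?_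
    · rw [mem_filter, hA, mem_filter, mem_powerset] at hc
      have h1 := (hQ c hc.1.1).resolve_left hc.1.2
      exact pow_le_pow_of_le_one hρ hρ1 h1.le
    · rw [nsmul_eq_mul]
      refine mul_le_mul_of_nonneg_right ?_ (pow_nonneg hρ _)
      have h1 : (A.filter (fun c => wt (sm c) (Z ∪ Q) ≤ s₂)).card ≤ Λ.powerset.card := by
        refine card_le_card_of_injOn (fun c => c \ Y) (fun c hc => ?_) (fun c hc c' hc' hcc => ?_)
        · rw [mem_coe, mem_filter, hA, mem_filter, mem_powerset] at hc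
          exact mem_coe.2 (mem_powerset.2 (trace_sub hc.1.1))
        · rw [mem_coe, mem_filter, hA, mem_filter, mem_powerset] at hc hc'
          by_contra hne
          have h3 : symmDiff c c' ⊆ Y := by
            intro l hl
            by_contra hn
            have h4 : l ∈ symmDiff c c' \ Y := mem_sdiff.2 ⟨hl, hn⟩
            have h6 : c \ Y = c' \ Y := hcc
            rw [symmDiff_trace, h6, symmDiff_self] at h4
            exact absurd h4 (notMem_empty _)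
          have h4 : (symmDiff c c').Nonempty := by
            rw [nonempty_iff_ne_empty]
            intro h5
            exact hne (symmDiff_eq_bot.1 h5)
          have h5 := hL _ h3 h4
          have h6 := wt_le_add (sm (symmDiff c c')) Z Q
          have h7 := wt_add_le (sm c) (sm c') (Z ∪ Q)
          rw [← sm_symmDiff] at h7
          omega
      rw [card_powerset] at h1
      have h2 : 2 ^ Λ.card ≤ 2 ^ q := Nat.pow_le_pow_right (by norm_num) hΛ
      exact_mod_cast h1.trans h2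
  · refine (sum_le_card_nsmul _ _ (ρ ^ s₂) fun c hc => ?_).trans ?_
    · rw [mem_filter, not_le] at hc
      exact pow_le_pow_of_le_one hρ hρ1 hc.2.le
    · rw [nsmul_eq_mul]
      refine mul_le_mul_of_nonneg_right ?_ (pow_nonneg hρ _)
      have h1 : (A.filter (fun c => ¬ wt (sm c) (Z ∪ Q) ≤ s₂)).card ≤ (Y ∪ Λ).powerset.card :=
        card_le_card ((filter_subset _ _).trans (filter_subset _ _))
      rw [card_powerset] at h1
      have h2 : 2 ^ (Y ∪ Λ).card ≤ 2 ^ (y + q) :=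
        Nat.pow_le_pow_right (by norm_num) ((card_union_le _ _).trans (by omega))
      exact_mod_cast h1.trans h2

end Pool.Agent.Helper99.Aff
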