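import Pool.Agent.Helper99.Aff.Step
import Pool.Agent.Helper99.Alg.Neg

set_option autoImplicit false
set_option linter.unusedSectionVars false

/-!
# Contents of a block and the multilinear extension in characteristic 2
-/

namespace Pool.Agent.Helper99.Aff

open Finset MvPolynomial Classical Pool.Agent.Helper56.PT Pool.Agent.Helper99.Alg

variable {ι : Type} {K : ι → Type} [∀ i, Field (K i)]

/-- the multilinear extension of an oracle -/
noncomputable def mE (A : List Bool → Bool) (m : ℕ) (i : ι) : MvPolynomial (Fin m) (K i) :=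
  mle (fun w => A (List.ofFn w))

/-- an oracle together with its multilinear extension -/
noncomputable def OA (dec : List Bool → Query ι K) (A : List Bool → Bool) : List Bool → Bool :=
  Ext dec A (mE A)

theorem mE_ext (A : List Bool → Bool) : IsExt (K := K) 1 A (mE A) :=
  fun _ _ => ⟨fun j => degreeOf_mle _ j, fun w => eval_mle _ w⟩

theorem eval_mE (A : List Bool → Bool) {m : ℕ} {i : ι} (y : Fin m → K i) :
    eval y (mE A m i) =
      ∑ w : Fin m → Bool, (if A (List.ofFn w) then eval y (delta w) else 0) := by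
  rw [mE, mle, map_sum]
  refine sum_congr rfl fun w _ => ?_
  split_ifs
  · rfl
  · simp

/-- coordinates of a finite field of characteristic 2 -/
theorem exists_coords (F : Type) [Field F] [Finite F] [CharP F 2] {N : ℕ}
    (h : Nat.card F ≤ 2 ^ N) :
    ∃ φ : Fin N → (F →+ ZMod 2), ∀ a b : F, (∀ k, φ k a = φ k b) → a = b := by
  let _ : Algebra (ZMod 2) F := ZMod.algebra F 2
  have : Module.Finite (ZMod 2) F := Module.Finite.of_finite
  have h1 : Nat.card F = Nat.card (ZMod 2) ^ Module.finrank (ZMod 2) F :=
    Module.natCard_eq_pow_finrank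
  have h2 : Nat.card (ZMod 2) = 2 := by simp
  rw [h2] at h1
  rw [h1] at h
  have hn : Module.finrank (ZMod 2) F ≤ N := (Nat.pow_le_pow_iff_right (by norm_num)).1 h
  let b := Module.finBasis (ZMod 2) F
  refine ⟨fun k => if hk : k.1 < Module.finrank (ZMod 2) F then
    (b.coord ⟨k.1, hk⟩).toAddMonoidHom else 0, fun a a' haa => ?_⟩
  refine b.ext_elem fun j => ?_
  have h3 := haa ⟨j.1, lt_of_lt_of_le j.2 hn⟩
  simp only [dif_pos j.2] at h3
  exact h3

variable {V : Type} [Fintype V]

/-- the bits of a content -/
noncomputable def cb (x : V → St) (ue : V × Bool) : Bool :=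
  decide ((if ue.2 then (x ue.1).2 else (x ue.1).1) = 1)

/-- the coefficients of a query -/
noncomputable def Dc (sU : V × Bool → List Bool) {m : ℕ} {i : ι} (y : Fin m → K i)
    (ue : V × Bool) : K i :=
  ∑ w : Fin m → Bool, if List.ofFn w = sU ue then eval y (delta w) else 0

/-- the functional of a coordinate of the value at `y` -/
noncomputable def fn (sU : V × Bool → List Bool) {m : ℕ} {i : ι} (y : Fin m → K i)
    (φ : K i →+ ZMod 2) : V → St :=
  fun u => (φ (Dc sU y (u, false)), φ (Dc sU y (u, true)))

theorem mul_bit (a b : ZMod 2) : a * b = if b = 1 then a else 0 := by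
  rcases zmod2_cases b with rfl | rfl
  · simp
  · simp

theorem coord_eval {A0 : List Bool → Bool} {sU : V × Bool → List Bool}
    (hU : Function.Injective sU) {m : ℕ} {i : ι} (y : Fin m → K i) (φ : K i →+ ZMod 2) :
    ∃ C : ZMod 2, ∀ x : V → St, φ (eval y (mE (modA A0 sU (cb x)) m i)) =
      C + pr (fn sU y φ) x := by
  refine ⟨φ (∑ w : Fin m → Bool, if ∃ ue, sU ue = List.ofFn w then 0 else
    (if A0 (List.ofFn w) then eval y (delta w) else 0)), fun x => ?_⟩
  have h1 : eval y (mE (modA A0 sU (cb x)) m i) =
      (∑ w : Fin m → Bool, if ∃ ue, sU ue = List.ofFn w then 0 else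
        (if A0 (List.ofFn w) then eval y (delta w) else 0)) +
      ∑ ue : V × Bool, (if cb x ue then Dc sU y ue else 0) := by
    have h2 : ∀ ue : V × Bool, (if cb x ue then Dc sU y ue else 0) =
        ∑ w : Fin m → Bool, (if cb x ue then (if List.ofFn w = sU ue then eval y (delta w)
          else 0) else 0) := by
      intro ue
      by_cases h : cb x ue
      · simp only [if_pos h]; rfl
      · simp [h]
    simp only [h2]
    rw [eval_mE, sum_comm, ← sum_add_distrib]
    refine sum_congr rfl fun w _ => ?_
    by_cases hw : ∃ ue, sU ue = List.ofFn w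
    · rw [if_pos hw, zero_add]
      obtain ⟨ue, hue⟩ := hw
      rw [sum_eq_single ue]
      · rw [← hue, modA_blk hU, if_pos rfl]
      · intro ue' _ hne
        have h9 : ¬ List.ofFn w = sU ue' := fun h => hne (hU (by rw [← h, hue]))
        rw [if_neg h9]
        simp
      · intro h; exact absurd (mem_univ _) h
    · rw [if_neg hw, modA_not _ hw, sum_eq_zero, add_zero]
      intro ue _
      have h9 : ¬ List.ofFn w = sU ue := fun h => hw ⟨ue, h.symm⟩
      rw [if_neg h9]
      simp
  rw [h1, map_add]
  congr 1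
  rw [map_sum, Fintype.sum_prod_type, pr]
  refine sum_congr rfl fun u _ => ?_
  rw [Fintype.sum_bool, dt, fn, mul_bit, mul_bit]
  have h3 : cb x (u, true) = decide ((x u).2 = 1) := by simp [cb]
  have h4 : cb x (u, false) = decide ((x u).1 = 1) := by simp [cb]
  rw [h3, h4, add_comm]
  simp only [decide_eq_true_eq]
  congr 1
  · split_ifs <;> simp
  · split_ifs <;> simp

/-- the functional of a bit -/
noncomputable def eU (ue : V × Bool) : V → St :=
  fun v => if v = ue.1 then (if ue.2 then (0, 1) else (1, 0)) else 0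

theorem pr_eU (ue : V × Bool) (x : V → St) :
    pr (eU ue) x = if ue.2 then (x ue.1).2 else (x ue.1).1 := by
  rw [pr, sum_eq_single ue.1]
  · rw [eU, if_pos rfl, dt]
    split_ifs <;> simp
  · intro v _ h
    rw [eU, if_neg h, dt_zero]
  · intro h; exact absurd (mem_univ _) h

/-- chosen coordinates -/
noncomputable def crd (F : Type) [Field F] (N : ℕ) : Fin N → (F →+ ZMod 2) :=
  if h : ∃ φ : Fin N → (F →+ ZMod 2), ∀ a b : F, (∀ k, φ k a = φ k b) → a = b then h.choose
  else fun _ => 0

theorem crd_spec (F : Type) [Field F] [Finite F] [CharP F 2] {N : ℕ} (h : Nat.card F ≤ 2 ^ N)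
    {a b : F} (hab : ∀ k, crd F N k a = crd F N k b) : a = b := by
  have h1 := exists_coords F h
  rw [crd, dif_pos h1] at hab
  exact h1.choose_spec a b hab

/-- the functionals of a query -/
noncomputable def fs (dec : List Bool → Query ι K) (sU : V × Bool → List Bool) :
    List Bool → Finset (V → St)
  | [] => ∅
  | false :: w => (univ.filter (fun ue => sU ue = w)).image eU
  | true :: t => univ.image (fun k : Fin (t.length + 1) =>
      fn sU (dec t).y (crd (K (dec t).i) (t.length + 1) k))

theorem fs_card (dec : List Bool → Query ι K) {sU : V × Bool → List Bool}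
    (hU : Function.Injective sU) (s : List Bool) : (fs dec sU s).card ≤ s.length + 1 := by
  match s with
  | [] => simp [fs]
  | false :: w =>
    rw [fs]
    refine card_image_le.trans ?_
    have h1 : (univ.filter (fun ue => sU ue = w)).card ≤ 1 := by
      rw [card_le_one]
      intro a ha b hb
      rw [mem_filter] at ha hb
      exact hU (ha.2.trans hb.2.symm)
    omega
  | true :: t =>
    rw [fs]
    refine card_image_le.trans ?_
    simp only [card_univ, Fintype.card_fin, List.length_cons]
    omega

theorem fs_spec [∀ i, Finite (K i)] [∀ i, CharP (K i) 2] {dec : List Bool → Query ι K}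
    (hc : ∀ s, Nat.card (K (dec s).i) ≤ 2 ^ (s.length + 1)) {A0 : List Bool → Bool}
    {sU : V × Bool → List Bool} (hU : Function.Injective sU) {x x' : V → St} {s : List Bool}
    (h : ∀ l ∈ fs dec sU s, pr l x' = pr l x) :
    OA dec (modA A0 sU (cb x')) s = OA dec (modA A0 sU (cb x)) s := by
  rcases s with _ | ⟨e, w⟩
  · rfl
  cases e
  · show modA A0 sU (cb x') w = modA A0 sU (cb x) w
    by_cases hw : ∃ ue, sU ue = w
    · obtain ⟨ue, rfl⟩ := hw
      rw [modA_blk hU, modA_blk hU]
      have h1 := h (eU ue) (by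
        rw [fs]
        exact mem_image_of_mem _ (mem_filter.2 ⟨mem_univ _, rfl⟩))
      rw [pr_eU, pr_eU] at h1
      rw [cb, cb, h1]
    · rw [modA_not _ hw, modA_not _ hw]
  · have h0 : eval (dec w).y (mE (modA A0 sU (cb x')) (dec w).m (dec w).i) =
        eval (dec w).y (mE (modA A0 sU (cb x)) (dec w).m (dec w).i) := by
      refine crd_spec (K (dec w).i) (hc w) fun k => ?_
      obtain ⟨C, hC⟩ := coord_eval (A0 := A0) hU (dec w).y (crd (K (dec w).i) (w.length + 1) k)
      rw [hC, hC]
      congr 1
      refine h _ ?_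
      rw [fs]
      exact mem_image_of_mem _ (mem_univ k)
    show (dec w).b (eval (dec w).y (mE (modA A0 sU (cb x')) (dec w).m (dec w).i)) =
      (dec w).b (eval (dec w).y (mE (modA A0 sU (cb x)) (dec w).m (dec w).i))
    rw [h0]

/-- the abstract setting of a stage -/
noncomputable def ps [∀ i, Finite (K i)] [∀ i, CharP (K i) 2] (dec : List Bool → Query ι K)
    (hc : ∀ s, Nat.card (K (dec s).i) ≤ 2 ^ (s.length + 1)) (J : Job) (A0 : List Bool → Bool)
    (sU : V × Bool → List Bool) (hU : Function.Injective sU) : PS V J.RS where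
  qs := fun ρ x => (J.Qr (OA dec (modA A0 sU (cb x))) ρ).biUnion (fs dec sU)
  out := fun ρ x => J.Out (OA dec (modA A0 sU (cb x))) ρ
  q := J.T1 * (J.s * J.T2 + 1) * (J.len + 1)
  card_le := fun ρ x => by
    refine card_biUnion_le.trans ((sum_le_card_nsmul _ _ (J.len + 1) fun s hs => ?_).trans ?_)
    · exact (fs_card dec hU s).trans (by have := J.Qr_len hs; omega)
    · rw [smul_eq_mul]
      exact Nat.mul_le_mul_right _ (J.Qr_card _ _)
  det := fun ρ x x' h => by
    have h1 : ∀ s ∈ J.Qr (OA dec (modA A0 sU (cb x))) ρ,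
        OA dec (modA A0 sU (cb x')) s = OA dec (modA A0 sU (cb x)) s := fun s hs =>
      fs_spec hc hU fun l hl => h l (mem_biUnion.2 ⟨s, hs, hl⟩)
    have h2 := J.det h1
    exact ⟨by rw [h2.1], h2.2⟩

/-! ### lower parts -/

/-- agreement below a length -/
def Lo (L : ℕ) (A A' : List Bool → Bool) : Prop := ∀ w : List Bool, w.length < L → A' w = A w

theorem Lo.low {L : ℕ} {A A' : List Bool → Bool} (h : Lo L A A') :
    Low (K := K) L A A' (mE A) (mE A') := by
  refine ⟨h, fun m hm i => ?_⟩
  rw [mE, mE]
  congr 1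
  funext w
  exact h _ (by simpa using hm)

theorem Lo.oa {L : ℕ} {A A' : List Bool → Bool} (h : Lo L A A') {dec : List Bool → Query ι K}
    (hdec : ∀ s, (dec s).m ≤ s.length) {s : List Bool} (hs : s.length ≤ L) :
    OA dec A' s = OA dec A s := h.low.ext hdec hs

theorem Lo.refl (L : ℕ) (A : List Bool → Bool) : Lo L A A := fun _ _ => rfl

theorem Lo.trans {L : ℕ} {A A' A'' : List Bool → Bool} (h : Lo L A A') (h' : Lo L A' A'') :
    Lo L A A'' := fun w hw => (h' w hw).trans (h w hw)

theorem Lo.mono {L L' : ℕ} {A A' : List Bool → Bool} (h : Lo L' A A') (hL : L ≤ L') :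
    Lo L A A' := fun w hw => h w (by omega)

end Pool.Agent.Helper99.Aff
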