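import Mathlib

set_option autoImplicit false
set_option linter.unusedSectionVars false

/-!
# Product measures and functionals modulo 2
-/

namespace Pool.Agent.Helper99.Aff

open Finset Classical

/-- the two bits of a position -/
abbrev St : Type := ZMod 2 × ZMod 2

variable {V : Type} [Fintype V]

/-- the value of a functional of one position -/
def dt (χ σ : St) : ZMod 2 := χ.1 * σ.1 + χ.2 * σ.2

/-- the value of a functional -/
def pr (κ x : V → St) : ZMod 2 := ∑ u, dt (κ u) (x u)

/-- the sign -/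
noncomputable def sg (a : ZMod 2) : ℝ := if a = 0 then 1 else -1

theorem zmod2_cases (a : ZMod 2) : a = 0 ∨ a = 1 := by
  revert a; decide

theorem sg_zero : sg 0 = 1 := by simp [sg]

theorem sg_one : sg 1 = -1 := by
  rw [sg, if_neg (by decide)]

theorem sg_add (a b : ZMod 2) : sg (a + b) = sg a * sg b := by
  rcases zmod2_cases a with rfl | rfl <;> rcases zmod2_cases b with rfl | rfl
  · simp [sg_zero]
  · simp [sg_zero]
  · simp [sg_zero]
  · rw [show (1 + 1 : ZMod 2) = 0 from by decide, sg_zero, sg_one]; norm_num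

theorem sg_sum {ι : Type} (s : Finset ι) (f : ι → ZMod 2) : sg (∑ i ∈ s, f i) = ∏ i ∈ s, sg (f i) := by
  induction s using Finset.induction_on with
  | empty => simp [sg_zero]
  | insert a s ha ih => rw [sum_insert ha, prod_insert ha, sg_add, ih]

theorem sg_sq (a : ZMod 2) : sg a * sg a = 1 := by
  rcases zmod2_cases a with rfl | rfl
  · rw [sg_zero]; norm_num
  · rw [sg_one]; norm_num

theorem sg_abs (a : ZMod 2) : |sg a| = 1 := by
  rcases zmod2_cases a with rfl | rfl
  · rw [sg_zero]; norm_num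
  · rw [sg_one]; norm_num

theorem sg_mul_eq {a b : ZMod 2} : sg a * sg b = if a = b then 1 else -1 := by
  rcases zmod2_cases a with rfl | rfl <;> rcases zmod2_cases b with rfl | rfl <;>
    simp [sg_zero, sg_one]

theorem dt_add (χ χ' σ : St) : dt (χ + χ') σ = dt χ σ + dt χ' σ := by
  simp only [dt, Prod.fst_add, Prod.snd_add]; ring

theorem dt_zero (σ : St) : dt 0 σ = 0 := by simp [dt]

theorem pr_add (κ κ' x : V → St) : pr (κ + κ') x = pr κ x + pr κ' x := by
  simp only [pr, Pi.add_apply, dt_add, sum_add_distrib]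

theorem pr_zero (x : V → St) : pr 0 x = 0 := by simp [pr, dt_zero]

theorem pr_sum (c : Finset (V → St)) (x : V → St) : pr (∑ l ∈ c, l) x = ∑ l ∈ c, pr l x := by
  induction c using Finset.induction_on with
  | empty => simp [pr_zero]
  | insert a s ha ih => rw [sum_insert ha, sum_insert ha, pr_add, ih]

/-- weight of a content for a family of laws -/
noncomputable def Wt (w : V → St → ℝ) (x : V → St) : ℝ := ∏ u, w u (x u)

/-- mass of a set of contents -/
noncomputable def Ms (w : V → St → ℝ) (A : (V → St) → Prop) : ℝ := ∑ x, if A x then Wt w x else 0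

/-- the characters of a law -/
noncomputable def hat (f : St → ℝ) (χ : St) : ℝ := ∑ σ, f σ * sg (dt χ σ)

/-- the law of a frozen position -/
noncomputable def dl (σ τ : St) : ℝ := if τ = σ then 1 else 0

theorem hat_dl (σ χ : St) : hat (dl σ) χ = sg (dt χ σ) := by
  rw [hat, sum_eq_single σ]
  · simp [dl]
  · intro τ _ h; simp [dl, h]
  · intro h; exact absurd (mem_univ _) h

theorem hat_zero (f : St → ℝ) : hat f 0 = ∑ σ, f σ := by
  simp [hat, dt_zero, sg_zero]

theorem sum_Wt_sg (w : V → St → ℝ) (κ : V → St) :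
    ∑ x, Wt w x * sg (pr κ x) = ∏ u, hat (w u) (κ u) := by
  have h := Finset.prod_univ_sum (fun _ : V => (univ : Finset St))
    (fun u σ => w u σ * sg (dt (κ u) σ))
  rw [Fintype.piFinset_univ] at h
  simp only [hat]
  rw [h]
  refine sum_congr rfl fun x _ => ?_
  rw [Wt, pr, sg_sum, ← prod_mul_distrib]

theorem Ms_nonneg {w : V → St → ℝ} (hw : ∀ u σ, 0 ≤ w u σ) (A : (V → St) → Prop) : 0 ≤ Ms w A := by
  refine sum_nonneg fun x _ => ?_
  split_ifs
  · exact prod_nonneg fun u _ => hw u _
  · exact le_rfl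

theorem Wt_nonneg {w : V → St → ℝ} (hw : ∀ u σ, 0 ≤ w u σ) (x : V → St) : 0 ≤ Wt w x :=
  prod_nonneg fun u _ => hw u _

theorem Ms_mono {w : V → St → ℝ} (hw : ∀ u σ, 0 ≤ w u σ) {A B : (V → St) → Prop}
    (h : ∀ x, A x → B x) : Ms w A ≤ Ms w B := by
  refine sum_le_sum fun x _ => ?_
  by_cases hA : A x
  · rw [if_pos hA, if_pos (h x hA)]
  · rw [if_neg hA]
    split_ifs
    · exact Wt_nonneg hw x
    · exact le_rfl

theorem Ms_congr {w : V → St → ℝ} {A B : (V → St) → Prop}
    (h : ∀ x, Wt w x ≠ 0 → (A x ↔ B x)) : Ms w A = Ms w B := by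
  refine sum_congr rfl fun x _ => ?_
  by_cases hw : Wt w x = 0
  · simp [hw]
  · simp only [h x hw]

theorem Ms_split_and (w : V → St → ℝ) (A F : (V → St) → Prop) :
    Ms w A = Ms w (fun x => A x ∧ F x) + Ms w (fun x => A x ∧ ¬ F x) := by
  simp only [Ms]
  rw [← sum_add_distrib]
  refine sum_congr rfl fun x _ => ?_
  by_cases h1 : A x <;> by_cases h2 : F x <;> simp [h1, h2]

theorem Ms_pos {w : V → St → ℝ} (hw : ∀ u σ, 0 ≤ w u σ) {A : (V → St) → Prop} (h : 0 < Ms w A) :
    ∃ x, A x ∧ 0 < Wt w x := by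
  by_contra hn
  push Not at hn
  refine absurd h (not_lt.2 (sum_nonpos fun x _ => ?_))
  split_ifs with hA
  · exact hn x hA
  · exact le_rfl

/-- the splitting along one position -/
theorem Ms_split (w : V → St → ℝ) (A : (V → St) → Prop) (u : V) :
    Ms w A = ∑ σ, w u σ * Ms (Function.update w u (dl σ)) A := by
  have key : ∀ x : V → St, Wt w x = ∑ σ, w u σ * Wt (Function.update w u (dl σ)) x := by
    intro x
    have h1 : ∀ σ, Wt (Function.update w u (dl σ)) x = dl σ (x u) * ∏ v ∈ univ.erase u, w v (x v) := by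
      intro σ
      rw [Wt, ← mul_prod_erase univ _ (mem_univ u), Function.update_self]
      congr 1
      refine prod_congr rfl fun v hv => ?_
      rw [Function.update_of_ne (ne_of_mem_erase hv)]
    simp only [h1]
    rw [sum_eq_single (x u)]
    · rw [dl, if_pos rfl, one_mul, Wt, ← mul_prod_erase univ _ (mem_univ u)]
    · intro σ _ h
      rw [dl, if_neg (Ne.symm h)]; ring
    · intro h; exact absurd (mem_univ _) h
  simp only [Ms, mul_sum]
  rw [sum_comm]
  refine sum_congr rfl fun x _ => ?_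
  by_cases hA : A x
  · simp only [if_pos hA]; exact key x
  · simp [hA]

/-- freezing the positions of `Q` at the values of `z` -/
noncomputable def frz (w : V → St → ℝ) (Q : Finset V) (z : V → St) : V → St → ℝ :=
  fun u => if u ∈ Q then dl (z u) else w u

theorem frz_empty (w : V → St → ℝ) (z : V → St) : frz w ∅ z = w := by
  funext u; simp [frz]

/-- a comparison after freezing gives a comparison -/
theorem ratio_of_frz {A : (V → St) → Prop} {c θ : ℝ} (hθ : 0 ≤ 1 - θ) (hc : 0 ≤ c) (Q : Finset V) :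
    ∀ w w' : V → St → ℝ, (∀ u σ, 0 ≤ w u σ) → (∀ u σ, 0 ≤ w' u σ) →
    (∀ u ∈ Q, ∀ σ, (1 - θ) * w u σ ≤ w' u σ) →
    (∀ z, c * Ms (frz w Q z) A ≤ Ms (frz w' Q z) A) →
    (1 - θ) ^ Q.card * c * Ms w A ≤ Ms w' A := by
  induction Q using Finset.induction_on with
  | empty =>
    intro w w' _ _ _ h
    have h1 := h (fun _ => 0)
    rw [frz_empty, frz_empty] at h1
    simpa using h1
  | insert u Q hu ih =>
    intro w w' hw hw' hr h
    rw [Ms_split w A u, Ms_split w' A u, mul_sum]
    refine sum_le_sum fun σ _ => ?_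
    have hup : ∀ (v : V → St → ℝ), (∀ u σ, 0 ≤ v u σ) →
        ∀ a τ, 0 ≤ Function.update v u (dl σ) a τ := by
      intro v hv a τ
      by_cases ha : a = u
      · subst ha
        rw [Function.update_self, dl]
        split_ifs <;> norm_num
      · rw [Function.update_of_ne ha]
        exact hv a τ
    have hf : ∀ (v : V → St → ℝ) (z : V → St), frz (Function.update v u (dl σ)) Q z =
        frz v (insert u Q) (Function.update z u σ) := by
      intro v z
      funext a
      by_cases ha : a = u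
      · subst ha
        simp [frz, hu]
      · by_cases hq : a ∈ Q
        · simp [frz, hq, ha]
        · simp [frz, hq, ha]
    have h1 := ih (Function.update w u (dl σ)) (Function.update w' u (dl σ)) (hup w hw) (hup w' hw')
      (fun a ha τ => by
        have hne : a ≠ u := fun h => hu (h ▸ ha)
        rw [Function.update_of_ne hne, Function.update_of_ne hne]
        exact hr a (mem_insert_of_mem ha) τ)
      (fun z => by rw [hf, hf]; exact h _)
    rw [card_insert_of_notMem hu, pow_succ]
    have h2 := hr u (mem_insert_self _ _) σ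
    have h3 : 0 ≤ Ms (Function.update w u (dl σ)) A := Ms_nonneg (hup w hw) A
    have h4 : 0 ≤ (1 - θ) ^ Q.card * c * Ms (Function.update w u (dl σ)) A := by positivity
    calc (1 - θ) ^ Q.card * (1 - θ) * c * (w u σ * Ms (Function.update w u (dl σ)) A)
        = ((1 - θ) * w u σ) * ((1 - θ) ^ Q.card * c * Ms (Function.update w u (dl σ)) A) := by ring
      _ ≤ w' u σ * ((1 - θ) ^ Q.card * c * Ms (Function.update w u (dl σ)) A) :=
        mul_le_mul_of_nonneg_right h2 h4
      _ ≤ w' u σ * Ms (Function.update w' u (dl σ)) A :=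
        mul_le_mul_of_nonneg_left h1 (hw' u σ)

/-! ### classes -/

/-- the class of the contents with the same values of the functionals in `Y` -/
def Cl (Y : Finset (V → St)) (x₀ x : V → St) : Prop := ∀ l ∈ Y, pr l x = pr l x₀

/-- the sum of the functionals in `c` -/
noncomputable def sm (c : Finset (V → St)) : V → St := ∑ l ∈ c, l

theorem ms_class (w : V → St → ℝ) (Y : Finset (V → St)) (x₀ : V → St) :
    2 ^ Y.card * Ms w (Cl Y x₀) =
      ∑ c ∈ Y.powerset, sg (pr (sm c) x₀) * ∏ u, hat (w u) (sm c u) := by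
  have hind : ∀ x : V → St, (if Cl Y x₀ x then (2 : ℝ) ^ Y.card else 0) =
      ∑ c ∈ Y.powerset, sg (pr (sm c) x₀) * sg (pr (sm c) x) := by
    intro x
    have h1 : ∏ l ∈ Y, (1 + sg (pr l x₀) * sg (pr l x)) =
        ∑ c ∈ Y.powerset, ∏ l ∈ c, (sg (pr l x₀) * sg (pr l x)) := Finset.prod_one_add Y
    have h2 : ∀ c : Finset (V → St), ∏ l ∈ c, (sg (pr l x₀) * sg (pr l x)) =
        sg (pr (sm c) x₀) * sg (pr (sm c) x) := by
      intro c
      rw [prod_mul_distrib, sm, pr_sum, pr_sum, sg_sum, sg_sum]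
    simp only [h2] at h1
    rw [← h1]
    split_ifs with h
    · rw [← prod_const]
      refine prod_congr rfl fun l hl => ?_
      rw [h l hl, sg_sq]
      norm_num
    · rw [Cl] at h
      push Not at h
      obtain ⟨l, hl, hne⟩ := h
      symm
      refine prod_eq_zero hl ?_
      rw [sg_mul_eq, if_neg (Ne.symm hne)]
      norm_num
  rw [Ms, mul_sum]
  have h3 : ∀ x : V → St, (2 : ℝ) ^ Y.card * (if Cl Y x₀ x then Wt w x else 0) =
      ∑ c ∈ Y.powerset, sg (pr (sm c) x₀) * (Wt w x * sg (pr (sm c) x)) := by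
    intro x
    have h4 : (2 : ℝ) ^ Y.card * (if Cl Y x₀ x then Wt w x else 0) =
        (if Cl Y x₀ x then (2 : ℝ) ^ Y.card else 0) * Wt w x := by
      split_ifs <;> ring
    rw [h4, hind, sum_mul]
    exact sum_congr rfl fun c _ => by ring
  simp only [h3]
  rw [sum_comm]
  refine sum_congr rfl fun c _ => ?_
  rw [← mul_sum, sum_Wt_sg]

/-- the number of positions outside `Z` on which a functional depends -/
noncomputable def wt (κ : V → St) (Z : Finset V) : ℕ :=
  (univ.filter (fun u => u ∉ Z ∧ κ u ≠ 0)).card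

theorem wt_eq_zero {κ : V → St} {Z : Finset V} : wt κ Z = 0 ↔ ∀ u ∉ Z, κ u = 0 := by
  rw [wt, card_eq_zero, filter_eq_empty_iff]
  constructor
  · intro h u hu
    by_contra hn
    exact h (mem_univ u) ⟨hu, hn⟩
  · intro h u _ hn
    exact hn.2 (h u hn.1)

/-- the estimate for the mass of a class -/
theorem class_est {w : V → St → ℝ} {Z : Finset V} {x₁ : V → St} {ρ : ℝ} (hρ : 0 ≤ ρ)
    (hZ : ∀ u ∈ Z, w u = dl (x₁ u)) (h1 : ∀ u, ∑ σ, w u σ = 1)
    (hh : ∀ u ∉ Z, ∀ χ ≠ 0, |hat (w u) χ| ≤ ρ) (Y : Finset (V → St)) :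
    |2 ^ Y.card * Ms w (Cl Y x₁) - ((Y.powerset.filter (fun c => wt (sm c) Z = 0)).card : ℝ)| ≤
      ∑ c ∈ Y.powerset.filter (fun c => wt (sm c) Z ≠ 0), ρ ^ wt (sm c) Z := by
  rw [ms_class, ← sum_filter_add_sum_filter_not Y.powerset (fun c => wt (sm c) Z = 0)]
  have ha : ∑ c ∈ Y.powerset.filter (fun c => wt (sm c) Z = 0),
      sg (pr (sm c) x₁) * ∏ u, hat (w u) (sm c u) =
      ((Y.powerset.filter (fun c => wt (sm c) Z = 0)).card : ℝ) := by
    rw [card_eq_sum_ones, Nat.cast_sum]
    refine sum_congr rfl fun c hc => ?_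
    have hv := wt_eq_zero.1 (mem_filter.1 hc).2
    have h2 : ∏ u, hat (w u) (sm c u) = sg (pr (sm c) x₁) := by
      rw [pr, sg_sum]
      refine prod_congr rfl fun u _ => ?_
      by_cases hu : u ∈ Z
      · rw [hZ u hu, hat_dl]
      · rw [hv u hu, hat_zero, h1, dt_zero, sg_zero]
    rw [h2, sg_sq]
    norm_num
  rw [ha, add_sub_cancel_left]
  refine (abs_sum_le_sum_abs _ _).trans (sum_le_sum fun c _ => ?_)
  rw [abs_mul, sg_abs, one_mul, abs_prod]
  have h3 : ρ ^ wt (sm c) Z = ∏ u, (if u ∉ Z ∧ sm c u ≠ 0 then ρ else 1) := by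
    rw [prod_ite, prod_const, prod_const_one, mul_one, wt]
  rw [h3]
  refine prod_le_prod (fun u _ => abs_nonneg _) fun u _ => ?_
  split_ifs with hu
  · exact hh u hu.1 _ hu.2
  · by_cases hz : u ∈ Z
    · rw [hZ u hz, hat_dl, sg_abs]
    · have h4 : sm c u = 0 := by
        by_contra hn
        exact hu ⟨hz, hn⟩
      rw [h4, hat_zero, h1]
      norm_num

end Pool.Agent.Helper99.Aff
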