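import Pool.Agent.Helper99.Aff.Proc

set_option autoImplicit false
set_option linter.unusedSectionVars false

/-!
# The laws, freezing
-/

namespace Pool.Agent.Helper99.Aff

open Finset Classical

variable {V : Type} [Fintype V] {R : Type} [Fintype R]

/-- both bits are 1 -/
def bb : St := (1, 1)

/-- the law at time `p` -/
noncomputable def fp (p : ℝ) (σ : St) : ℝ := if σ = bb then p else (1 - p) / 3

theorem univ_St : (univ : Finset St) = {(0, 0), (0, 1), (1, 0), (1, 1)} := by decide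

theorem sum_St (f : St → ℝ) : ∑ σ, f σ = f (0, 0) + f (0, 1) + f (1, 0) + f (1, 1) := by
  rw [univ_St, sum_insert (by decide), sum_insert (by decide), sum_insert (by decide),
    sum_singleton]
  ring

theorem fp_vals (p : ℝ) : fp p (0, 0) = (1 - p) / 3 ∧ fp p (0, 1) = (1 - p) / 3 ∧
    fp p (1, 0) = (1 - p) / 3 ∧ fp p (1, 1) = p := by
  refine ⟨?_, ?_, ?_, ?_⟩
  · rw [fp, if_neg (by decide)]
  · rw [fp, if_neg (by decide)]
  · rw [fp, if_neg (by decide)]
  · rw [fp, if_pos (by decide)]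

theorem fp_sum (p : ℝ) : ∑ σ, fp p σ = 1 := by
  obtain ⟨h1, h2, h3, h4⟩ := fp_vals p
  rw [sum_St, h1, h2, h3, h4]
  ring

theorem fp_nonneg {p : ℝ} (h0 : 0 ≤ p) (h1 : p ≤ 15 / 16) (σ : St) : 0 ≤ fp p σ := by
  rw [fp]
  split_ifs
  · exact h0
  · linarith

theorem fp_hat {p : ℝ} (h0 : 0 ≤ p) (h1 : p ≤ 15 / 16) {χ : St} (hχ : χ ≠ 0) :
    |hat (fp p) χ| ≤ 11 / 12 := by
  obtain ⟨e1, e2, e3, e4⟩ := fp_vals p
  have hc : χ = (0, 1) ∨ χ = (1, 0) ∨ χ = (1, 1) := by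
    revert χ
    decide
  rw [hat, sum_St, e1, e2, e3, e4]
  rcases hc with rfl | rfl | rfl
  · have d1 : dt (0, 1) (0, 0) = 0 := by decide
    have d2 : dt (0, 1) (0, 1) = 1 := by decide
    have d3 : dt (0, 1) (1, 0) = 0 := by decide
    have d4 : dt (0, 1) (1, 1) = 1 := by decide
    rw [d1, d2, d3, d4, sg_zero, sg_one, abs_le]
    constructor <;> linarith
  · have d1 : dt (1, 0) (0, 0) = 0 := by decide
    have d2 : dt (1, 0) (0, 1) = 0 := by decide
    have d3 : dt (1, 0) (1, 0) = 1 := by decide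
    have d4 : dt (1, 0) (1, 1) = 1 := by decide
    rw [d1, d2, d3, d4, sg_zero, sg_one, abs_le]
    constructor <;> linarith
  · have d1 : dt (1, 1) (0, 0) = 0 := by decide
    have d2 : dt (1, 1) (0, 1) = 1 := by decide
    have d3 : dt (1, 1) (1, 0) = 1 := by decide
    have d4 : dt (1, 1) (1, 1) = 0 := by decide
    rw [d1, d2, d3, d4, sg_zero, sg_one, abs_le]
    constructor <;> linarith

/-- the laws: the positions of `Z` are frozen, those of `W₁` have the law at time `p`, the other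
ones the law at time `0` -/
noncomputable def lw (W₁ : Finset V) (p : ℝ) (Z : Finset V) (x₀ : V → St) (u : V) : St → ℝ :=
  if u ∈ Z then dl (x₀ u) else fp (if u ∈ W₁ then p else 0)

theorem lw_Lw {W₁ Z : Finset V} {p : ℝ} (h0 : 0 ≤ p) (h1 : p ≤ 15 / 16) (x₀ : V → St) :
    Lw (11 / 12) Z x₀ (lw W₁ p Z x₀) := by
  have hp : ∀ u : V, 0 ≤ (if u ∈ W₁ then p else 0) ∧ (if u ∈ W₁ then p else 0) ≤ 15 / 16 := by
    intro u
    split_ifs
    · exact ⟨h0, h1⟩
    · norm_num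
  refine ⟨fun u σ => ?_, fun u => ?_, fun u hu => ?_, fun u hu χ hχ => ?_⟩
  · rw [lw]
    split_ifs
    · exact dl_nonneg _ _
    · exact fp_nonneg h0 h1 σ
    · exact fp_nonneg le_rfl (by norm_num) σ
  · by_cases hu : u ∈ Z
    · simp only [lw, if_pos hu]; exact dl_sum _
    · simp only [lw, if_neg hu]; exact fp_sum _
  · simp only [lw, if_pos hu]
  · simp only [lw, if_neg hu]
    exact fp_hat (hp u).1 (hp u).2 hχ

/-- the invariant -/
structure Inv (W₁ : Finset V) (F : (V → St) → Prop) (p θ : ℝ) (Z : Finset V)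
    (Y : Finset (V → St)) (x₀ : V → St) : Prop where
  pos : 0 < Wt (lw W₁ p Z x₀) x₀
  neu : ∀ u ∉ W₁, x₀ u ≠ bb
  h0 : 0 < Ms (lw W₁ p Z x₀) (fun x => Cl Y x₀ x ∧ ¬ F x)
  h1 : Ms (lw W₁ p Z x₀) (fun x => Cl Y x₀ x ∧ F x) ≤
    θ * Ms (lw W₁ p Z x₀) (fun x => Cl Y x₀ x ∧ ¬ F x)

theorem lw_same {W₁ Z : Finset V} {p : ℝ} {x₀ x₁ : V → St} (h : 0 < Wt (lw W₁ p Z x₀) x₁) :
    (∀ u ∈ Z, x₁ u = x₀ u) ∧ lw W₁ p Z x₁ = lw W₁ p Z x₀ := by
  have h1 : ∀ u ∈ Z, x₁ u = x₀ u := by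
    intro u hu
    have h2 := Wt_ne h.ne' u
    rw [lw, if_pos hu] at h2
    exact eq_of_dl h2
  refine ⟨h1, ?_⟩
  funext u
  by_cases hu : u ∈ Z
  · simp only [lw, if_pos hu, h1 u hu]
  · simp only [lw, if_neg hu]

theorem lw_neu {W₁ Z : Finset V} {p : ℝ} {x₀ x₁ : V → St} (h : 0 < Wt (lw W₁ p Z x₀) x₁)
    (h0 : ∀ u ∉ W₁, x₀ u ≠ bb) : ∀ u ∉ W₁, x₁ u ≠ bb := by
  intro u hu
  by_cases hz : u ∈ Z
  · rw [(lw_same h).1 u hz]
    exact h0 u hu
  · have h2 := Wt_ne h.ne' u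
    rw [lw, if_neg hz, if_neg hu] at h2
    intro hb
    rw [hb, fp, if_pos rfl] at h2
    exact h2 rfl

/-- positions can be frozen -/
theorem Inv.freeze_one {W₁ : Finset V} {F : (V → St) → Prop} {p θ : ℝ} {Z : Finset V}
    {Y : Finset (V → St)} {x₀ : V → St} (hp0 : 0 ≤ p) (hp1 : p ≤ 15 / 16)
    (h : Inv W₁ F p θ Z Y x₀) {u : V} (hu : u ∉ Z) :
    ∃ x₁, Inv W₁ F p θ (insert u Z) Y x₁ := by
  have hL := lw_Lw (W₁ := W₁) (Z := Z) hp0 hp1 x₀
  set w := lw W₁ p Z x₀ with hw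
  have hup : ∀ σ a τ, 0 ≤ Function.update w u (dl σ) a τ := by
    intro σ a τ
    by_cases ha : a = u
    · subst ha
      rw [Function.update_self]
      exact dl_nonneg _ _
    · rw [Function.update_of_ne ha]
      exact hL.nn a τ
  obtain ⟨σ, hσ1, hσ2, hσ3⟩ : ∃ σ, 0 < w u σ ∧
      0 < Ms (Function.update w u (dl σ)) (fun x => Cl Y x₀ x ∧ ¬ F x) ∧
      Ms (Function.update w u (dl σ)) (fun x => Cl Y x₀ x ∧ F x) ≤
        θ * Ms (Function.update w u (dl σ)) (fun x => Cl Y x₀ x ∧ ¬ F x) := by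
    by_contra hn
    push Not at hn
    have e0 := Ms_split w (fun x => Cl Y x₀ x ∧ ¬ F x) u
    have e1 := Ms_split w (fun x => Cl Y x₀ x ∧ F x) u
    have h0 := h.h0
    have h1 := h.h1
    rw [← hw, e0] at h0
    rw [← hw, e0, e1, mul_sum] at h1
    have hge : ∀ σ ∈ (univ : Finset St), θ * (w u σ *
        Ms (Function.update w u (dl σ)) (fun x => Cl Y x₀ x ∧ ¬ F x)) ≤
        w u σ * Ms (Function.update w u (dl σ)) (fun x => Cl Y x₀ x ∧ F x) := by
      intro σ _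
      have n1 := hL.nn u σ
      have n2 := Ms_nonneg (hup σ) (fun x => Cl Y x₀ x ∧ ¬ F x)
      have n3 := Ms_nonneg (hup σ) (fun x => Cl Y x₀ x ∧ F x)
      rcases n1.eq_or_lt with h2 | h2
      · rw [← h2]; simp
      · rcases n2.eq_or_lt with h3 | h3
        · rw [← h3]
          simp only [mul_zero]
          exact mul_nonneg n1 n3
        · have h4 := hn σ h2 h3
          nlinarith
    obtain ⟨σ, _, hσ⟩ := exists_lt_of_sum_lt (s := (univ : Finset St)) (f := fun _ => (0 : ℝ))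
      (g := fun σ => w u σ * Ms (Function.update w u (dl σ)) (fun x => Cl Y x₀ x ∧ ¬ F x))
      (by rw [sum_const_zero]; exact h0)
    have n1 := hL.nn u σ
    have n2 := Ms_nonneg (hup σ) (fun x => Cl Y x₀ x ∧ ¬ F x)
    have h2 : 0 < w u σ := by
      rcases n1.eq_or_lt with h2 | h2
      · rw [← h2, zero_mul] at hσ; exact absurd hσ (lt_irrefl _)
      · exact h2
    have h3 : 0 < Ms (Function.update w u (dl σ)) (fun x => Cl Y x₀ x ∧ ¬ F x) := by
      rcases n2.eq_or_lt with h3 | h3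
      · rw [← h3, mul_zero] at hσ; exact absurd hσ (lt_irrefl _)
      · exact h3
    have h4 := hn σ h2 h3
    have hlt := sum_lt_sum hge ⟨σ, mem_univ _, by nlinarith⟩
    exact absurd h1 (not_le.2 hlt)
  obtain ⟨x₁, ⟨hx1, hx2⟩, hx3⟩ := Ms_pos (hup σ) hσ2
  have hxu : x₁ u = σ := by
    have h2 := Wt_ne hx3.ne' u
    rw [Function.update_self] at h2
    exact eq_of_dl h2
  have hxZ : ∀ v ∈ Z, x₁ v = x₀ v := by
    intro v hv
    have h2 := Wt_ne hx3.ne' v
    have hne : v ≠ u := fun h => hu (h ▸ hv)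
    rw [Function.update_of_ne hne, hw, lw, if_pos hv] at h2
    exact eq_of_dl h2
  have hlaw : lw W₁ p (insert u Z) x₁ = Function.update w u (dl σ) := by
    funext v
    by_cases hv : v = u
    · subst hv
      rw [Function.update_self, lw, if_pos (mem_insert_self _ _), hxu]
    · rw [Function.update_of_ne hv, hw]
      by_cases hz : v ∈ Z
      · rw [lw, lw, if_pos (mem_insert_of_mem hz), if_pos hz, hxZ v hz]
      · rw [lw, lw, if_neg (by rw [mem_insert, not_or]; exact ⟨hv, hz⟩), if_neg hz]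
  refine ⟨x₁, ?_, fun v hv => ?_, ?_, ?_⟩
  · rw [hlaw]; exact hx3
  · by_cases hvu : v = u
    · subst hvu
      rw [hxu]
      intro hb
      rw [hb, hw, lw, if_neg hu, if_neg hv, fp, if_pos rfl] at hσ1
      exact lt_irrefl _ hσ1
    · by_cases hz : v ∈ Z
      · rw [hxZ v hz]
        exact h.neu v hv
      · have h2 := Wt_ne hx3.ne' v
        rw [Function.update_of_ne hvu, hw, lw, if_neg hz, if_neg hv] at h2
        intro hb
        rw [hb, fp, if_pos rfl] at h2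
        exact h2 rfl
  · rw [hlaw, ← Cl_eq hx1]; exact hσ2
  · rw [hlaw, ← Cl_eq hx1]; exact hσ3

theorem Inv.freeze {W₁ : Finset V} {F : (V → St) → Prop} {p θ : ℝ} {Z : Finset V}
    {Y : Finset (V → St)} (hp0 : 0 ≤ p) (hp1 : p ≤ 15 / 16) (T : Finset V) :
    ∀ {x₀ : V → St}, Inv W₁ F p θ Z Y x₀ → ∃ x₁, Inv W₁ F p θ (Z ∪ T) Y x₁ := by
  induction T using Finset.induction_on with
  | empty => intro x₀ h; exact ⟨x₀, by rw [union_empty]; exact h⟩
  | insert u T hu ih =>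
    intro x₀ h
    obtain ⟨x₁, h1⟩ := ih h
    rw [union_insert]
    by_cases hz : u ∈ Z ∪ T
    · rw [insert_eq_of_mem hz]
      exact ⟨x₁, h1⟩
    · exact h1.freeze_one hp0 hp1 hz

/-- a functional which is determined by the other ones can be dropped -/
theorem Inv.drop {W₁ : Finset V} {F : (V → St) → Prop} {p θ : ℝ} {Z : Finset V}
    {Y : Finset (V → St)} {x₀ : V → St} (h : Inv W₁ F p θ Z Y x₀) {c : Finset (V → St)}
    (hc : c ⊆ Y) (h0 : wt (sm c) Z = 0) {j : V → St} (hj : j ∈ c) :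
    Inv W₁ F p θ Z (Y.erase j) x₀ := by
  have key : ∀ x, Wt (lw W₁ p Z x₀) x ≠ 0 → (Cl (Y.erase j) x₀ x ↔ Cl Y x₀ x) := by
    intro x hx
    constructor
    · intro h1 l hl
      by_cases hlj : l = j
      · subst hlj
        have hv := wt_eq_zero.1 h0
        have h2 : pr (sm c) x = pr (sm c) x₀ := by
          rw [pr, pr]
          refine sum_congr rfl fun u _ => ?_
          by_cases hu : u ∈ Z
          · have h3 := Wt_ne hx u
            rw [lw, if_pos hu] at h3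
            rw [eq_of_dl h3]
          · rw [hv u hu, dt_zero, dt_zero]
        rw [sm, pr_sum, pr_sum, ← add_sum_erase c _ hj, ← add_sum_erase c _ hj] at h2
        have h3 : ∑ l' ∈ c.erase l, pr l' x = ∑ l' ∈ c.erase l, pr l' x₀ :=
          sum_congr rfl fun l' hl' => h1 l' (mem_erase.2 ⟨ne_of_mem_erase hl',
            hc (mem_of_mem_erase hl')⟩)
        rw [h3] at h2
        exact add_right_cancel h2
      · exact h1 l (mem_erase.2 ⟨hlj, hl⟩)
    · intro h1 l hl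
      exact h1 l (mem_of_mem_erase hl)
  have e0 : Ms (lw W₁ p Z x₀) (fun x => Cl (Y.erase j) x₀ x ∧ ¬ F x) =
      Ms (lw W₁ p Z x₀) (fun x => Cl Y x₀ x ∧ ¬ F x) :=
    Ms_congr fun x hx => and_congr_left fun _ => key x hx
  have e1 : Ms (lw W₁ p Z x₀) (fun x => Cl (Y.erase j) x₀ x ∧ F x) =
      Ms (lw W₁ p Z x₀) (fun x => Cl Y x₀ x ∧ F x) :=
    Ms_congr fun x hx => and_congr_left fun _ => key x hx
  exact ⟨h.pos, h.neu, by rw [e0]; exact h.h0, by rw [e0, e1]; exact h.h1⟩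

/-- all short sums can be removed -/
theorem Inv.longify {W₁ : Finset V} {F : (V → St) → Prop} {p θ : ℝ} (hp0 : 0 ≤ p)
    (hp1 : p ≤ 15 / 16) (t : ℕ) : ∀ (n : ℕ) {Z : Finset V} {Y : Finset (V → St)} {x₀ : V → St},
    Y.card = n → Inv W₁ F p θ Z Y x₀ → ∃ (Z' : Finset V) (Y' : Finset (V → St)) (x₁ : V → St),
      Inv W₁ F p θ Z' Y' x₁ ∧ Long t Z' Y' ∧ Z'.card + t * Y'.card ≤ Z.card + t * Y.card ∧
      Y'.card ≤ Y.card := by
  intro n
  induction n with
  | zero =>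
    intro Z Y x₀ hY h
    refine ⟨Z, Y, x₀, h, fun c hc hne => ?_, le_rfl, le_rfl⟩
    rw [card_eq_zero] at hY
    subst hY
    rw [subset_empty] at hc
    subst hc
    exact absurd hne not_nonempty_empty
  | succ n ih =>
    intro Z Y x₀ hY h
    by_cases hL : Long t Z Y
    · exact ⟨Z, Y, x₀, h, hL, le_rfl, le_rfl⟩
    · rw [Long] at hL
      push Not at hL
      obtain ⟨c, hc, ⟨j, hj⟩, hw⟩ := hL
      set T := univ.filter (fun u => u ∉ Z ∧ sm c u ≠ 0) with hT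
      have hTc : T.card ≤ t := hw
      obtain ⟨x₁, h1⟩ := h.freeze hp0 hp1 T
      have h0 : wt (sm c) (Z ∪ T) = 0 := by
        rw [wt_eq_zero]
        intro u hu
        by_contra hn
        rw [mem_union, not_or] at hu
        exact hu.2 (mem_filter.2 ⟨mem_univ _, hu.1, hn⟩)
      have h2 := h1.drop hc h0 hj
      have hcard : (Y.erase j).card = n := by
        rw [card_erase_of_mem (hc hj), hY]
        rfl
      obtain ⟨Z', Y', x₂, h3, h4, h5, h6⟩ := ih hcard h2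
      refine ⟨Z', Y', x₂, h3, h4, h5.trans ?_, by omega⟩
      have h7 := card_union_le Z T
      rw [hcard, hY, mul_add, mul_one]
      omega

/-- the odds can be halved -/
theorem Inv.refine {S : PS V R} {W₁ : Finset V} {F : (V → St) → Prop} (hG : S.Gap F) {p θ : ℝ}
    (hp0 : 0 ≤ p) (hp1 : p ≤ 15 / 16) (hθ : 0 < θ) {Z : Finset V} {Y : Finset (V → St)}
    {x₀ : V → St} (h : Inv W₁ F p θ Z Y x₀) :
    ∃ (Y' : Finset (V → St)) (x₁ : V → St), Inv W₁ F p (θ / 2) Z Y' x₁ ∧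
      Y'.card ≤ Y.card + S.q := by
  have hL := lw_Lw (W₁ := W₁) (Z := Z) hp0 hp1 x₀
  obtain ⟨Λ, x₁, h1, h2, h3, h4, h5⟩ := PS.refine_one hG hL.nn hθ h.h0 h.h1
  have h6 := (lw_same h3).2
  refine ⟨Y ∪ Λ, x₁, ⟨by rw [h6]; exact h3, lw_neu h3 h.neu, by rw [h6]; exact h4,
    by rw [h6]; exact h5⟩, (card_union_le _ _).trans (by omega)⟩

theorem Inv.refine_pow {S : PS V R} {W₁ : Finset V} {F : (V → St) → Prop} (hG : S.Gap F) {p : ℝ}
    (hp0 : 0 ≤ p) (hp1 : p ≤ 15 / 16) {Z : Finset V} (k : ℕ) :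
    ∀ {θ : ℝ} {Y : Finset (V → St)} {x₀ : V → St}, 0 < θ → Inv W₁ F p θ Z Y x₀ →
    ∃ (Y' : Finset (V → St)) (x₁ : V → St), Inv W₁ F p (θ / 2 ^ k) Z Y' x₁ ∧
      Y'.card ≤ Y.card + k * S.q := by
  induction k with
  | zero => intro θ Y x₀ _ h; exact ⟨Y, x₀, by simpa using h, by simp⟩
  | succ k ih =>
    intro θ Y x₀ hθ h
    obtain ⟨Y1, x₁, h1, h2⟩ := h.refine hG hp0 hp1 hθ
    obtain ⟨Y2, x₂, h3, h4⟩ := ih (by positivity) h1
    refine ⟨Y2, x₂, ?_, ?_⟩
    · have e : θ / 2 / 2 ^ k = θ / 2 ^ (k + 1) := by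
        rw [pow_succ, div_div, mul_comm]
      rw [e] at h3
      exact h3
    · rw [add_mul, one_mul]
      omega

end Pool.Agent.Helper99.Aff
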