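import Pool.Agent.Helper99.Aff.Close

set_option autoImplicit false
set_option linter.unusedSectionVars false

/-!
# The leaves under two laws
-/

namespace Pool.Agent.Helper99.Aff

open Finset Classical

variable {V : Type} [Fintype V]

/-- the laws: frozen on `Z` at the values of `x₀`, small characters outside `Z` -/
structure Lw (ρ : ℝ) (Z : Finset V) (x₀ : V → St) (w : V → St → ℝ) : Prop where
  nn : ∀ u σ, 0 ≤ w u σ
  one : ∀ u, ∑ σ, w u σ = 1
  fr : ∀ u ∈ Z, w u = dl (x₀ u)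
  ht : ∀ u ∉ Z, ∀ χ ≠ 0, |hat (w u) χ| ≤ ρ

theorem dl_nonneg (σ τ : St) : 0 ≤ dl σ τ := by
  rw [dl]; split_ifs <;> norm_num

theorem dl_sum (σ : St) : ∑ τ, dl σ τ = 1 := by
  rw [← hat_zero, hat_dl, dt_zero, sg_zero]

theorem Wt_ne {w : V → St → ℝ} {x : V → St} (h : Wt w x ≠ 0) (u : V) : w u (x u) ≠ 0 := fun h0 =>
  h (prod_eq_zero (mem_univ u) h0)

theorem eq_of_dl {σ τ : St} (h : dl σ τ ≠ 0) : τ = σ := by
  rw [dl] at h
  by_contra hn
  rw [if_neg hn] at h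
  exact h rfl

theorem Lw.frz {ρ : ℝ} {Z Q : Finset V} {x₀ x₁ z : V → St} {w : V → St → ℝ} (h : Lw ρ Z x₀ w)
    (hx : Wt (frz w Q z) x₁ ≠ 0) : Lw ρ (Z ∪ Q) x₁ (frz w Q z) := by
  refine ⟨fun u σ => ?_, fun u => ?_, fun u hu => ?_, fun u hu χ hχ => ?_⟩
  · rw [Aff.frz]
    split_ifs
    · exact dl_nonneg _ _
    · exact h.nn u σ
  · by_cases hq : u ∈ Q
    · simp only [Aff.frz, if_pos hq]
      exact dl_sum _
    · simp only [Aff.frz, if_neg hq]
      exact h.one u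
  · have h1 := Wt_ne hx u
    by_cases hq : u ∈ Q
    · simp only [Aff.frz, if_pos hq] at h1 ⊢
      rw [eq_of_dl h1]
    · simp only [Aff.frz, if_neg hq] at h1 ⊢
      rw [mem_union] at hu
      have h2 := h.fr u (hu.resolve_right hq)
      rw [h2] at h1 ⊢
      rw [eq_of_dl h1]
  · rw [mem_union, not_or] at hu
    simp only [Aff.frz, if_neg hu.2]
    exact h.ht u hu.1 χ hχ

theorem Cl_eq {Y : Finset (V → St)} {x₀ x₁ : V → St} (h : Cl Y x₀ x₁) : Cl Y x₀ = Cl Y x₁ := by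
  funext x
  refine propext ⟨fun hx l hl => ?_, fun hx l hl => ?_⟩
  · rw [hx l hl, h l hl]
  · rw [hx l hl, h l hl]

theorem zero_card_pos (Y : Finset (V → St)) (Z : Finset V) :
    (1 : ℝ) ≤ ((Y.powerset.filter (fun c => wt (sm c) Z = 0)).card : ℝ) := by
  have h : 0 < (Y.powerset.filter (fun c => wt (sm c) Z = 0)).card :=
    card_pos.2 ⟨∅, mem_filter.2 ⟨empty_mem_powerset _, by rw [sm_empty, wt_zero]⟩⟩
  exact_mod_cast h

/-- every leaf keeps most of its mass -/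
theorem leaf_ratio {ρ θ E : ℝ} (hρ : 0 ≤ ρ) (hθ0 : 0 ≤ θ) (hθ : 0 ≤ 1 - θ) (hE : 0 ≤ 1 - 2 * E)
    {Z Q : Finset V} {x₀ : V → St} {w w' : V → St → ℝ} (hw : Lw ρ Z x₀ w) (hw' : Lw ρ Z x₀ w')
    (hr : ∀ u ∉ Z, ∀ σ, (1 - θ) * w u σ ≤ w' u σ) {Y : Finset (V → St)}
    (hs : ∑ c ∈ Y.powerset.filter (fun c => wt (sm c) (Z ∪ Q) ≠ 0), ρ ^ wt (sm c) (Z ∪ Q) ≤ E)
    (x : V → St) :
    (1 - θ) ^ Q.card * (1 - 2 * E) * Ms w (Cl Y x) ≤ Ms w' (Cl Y x) := by
  refine ratio_of_frz hθ hE Q w w' hw.nn hw'.nn (fun u _ σ => ?_) (fun z => ?_)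
  · by_cases hu : u ∈ Z
    · rw [hw.fr u hu, hw'.fr u hu]
      nlinarith [dl_nonneg (x₀ u) σ]
    · exact hr u hu σ
  · have hnn : ∀ (v : V → St → ℝ), (∀ u σ, 0 ≤ v u σ) → ∀ u σ, 0 ≤ frz v Q z u σ := by
      intro v hv u σ
      rw [frz]
      split_ifs
      · exact dl_nonneg _ _
      · exact hv u σ
    by_cases h0 : 0 < Ms (frz w Q z) (Cl Y x)
    · obtain ⟨x₁, hx1, hx2⟩ := Ms_pos (hnn w hw.nn) h0
      have h1 : Lw ρ (Z ∪ Q) x₁ (frz w Q z) := hw.frz hx2.ne'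
      have h2 : Lw ρ (Z ∪ Q) x₁ (frz w' Q z) := by
        refine ⟨hnn w' hw'.nn, fun u => ?_, fun u hu => ?_, fun u hu χ hχ => ?_⟩
        · by_cases hq : u ∈ Q
          · simp only [frz, if_pos hq]
            exact dl_sum _
          · simp only [frz, if_neg hq]
            exact hw'.one u
        · have h3 := h1.fr u hu
          by_cases hq : u ∈ Q
          · simp only [frz, if_pos hq] at h3 ⊢
            exact h3
          · simp only [frz, if_neg hq] at h3 ⊢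
            rw [mem_union] at hu
            have hu' := hu.resolve_right hq
            rw [hw'.fr u hu', ← h3, hw.fr u hu']
        · rw [mem_union, not_or] at hu
          simp only [frz, if_neg hu.2]
          exact hw'.ht u hu.1 χ hχ
      rw [Cl_eq hx1]
      have e1 := class_est hρ h1.fr h1.one h1.ht Y
      have e2 := class_est hρ h2.fr h2.one h2.ht Y
      have hC := zero_card_pos Y (Z ∪ Q)
      set C : ℝ := ((Y.powerset.filter (fun c => wt (sm c) (Z ∪ Q) = 0)).card : ℝ)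
      have e3 := (abs_le.1 (e1.trans hs)).2
      have e4 := (abs_le.1 (e2.trans hs)).1
      have hE0 : 0 ≤ E := le_trans (sum_nonneg fun c _ => pow_nonneg hρ _) hs
      have hp : (0 : ℝ) < 2 ^ Y.card := by positivity
      have key : 2 ^ Y.card * ((1 - 2 * E) * Ms (frz w Q z) (Cl Y x₁)) ≤
          2 ^ Y.card * Ms (frz w' Q z) (Cl Y x₁) := by
        have h5 : (1 - 2 * E) * (2 ^ Y.card * Ms (frz w Q z) (Cl Y x₁)) ≤ (1 - 2 * E) * (C + E) :=
          mul_le_mul_of_nonneg_left (by linarith) hE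
        nlinarith
      exact le_of_mul_le_mul_left key hp
    · have h1 : Ms (frz w Q z) (Cl Y x) = 0 :=
        le_antisymm (not_lt.1 h0) (Ms_nonneg (hnn w hw.nn) _)
      rw [h1, mul_zero]
      exact Ms_nonneg (hnn w' hw'.nn) _

/-- the mass of a class with only long sums -/
theorem base_est {ρ E : ℝ} (hρ : 0 ≤ ρ) (hρ1 : ρ ≤ 1) {t y : ℕ} {Z : Finset V} {x₀ : V → St}
    {w : V → St → ℝ} (hw : Lw ρ Z x₀ w) {Y : Finset (V → St)} (hL : Long t Z Y) (hY : Y.card ≤ y)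
    (hE : 2 ^ y * ρ ^ t ≤ E) : |2 ^ Y.card * Ms w (Cl Y x₀) - 1| ≤ E := by
  have h1 := class_est hρ hw.fr hw.one hw.ht Y
  have h2 : Y.powerset.filter (fun c => wt (sm c) Z = 0) = {∅} := by
    ext c
    rw [mem_filter, mem_powerset, mem_singleton]
    constructor
    · rintro ⟨h3, h4⟩
      by_contra hn
      have := hL c h3 (nonempty_iff_ne_empty.2 hn)
      omega
    · rintro rfl
      exact ⟨empty_subset _, by rw [sm_empty, wt_zero]⟩
  rw [h2, card_singleton, Nat.cast_one] at h1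
  refine (h1.trans ?_).trans hE
  refine (sum_le_card_nsmul _ _ (ρ ^ t) fun c hc => ?_).trans ?_
  · rw [mem_filter, mem_powerset] at hc
    have hne : c.Nonempty := by
      rw [nonempty_iff_ne_empty]
      rintro rfl
      exact hc.2 (by rw [sm_empty, wt_zero])
    exact pow_le_pow_of_le_one hρ hρ1 (hL c hc.1 hne).le
  · rw [nsmul_eq_mul]
    refine mul_le_mul_of_nonneg_right ?_ (pow_nonneg hρ _)
    have h3 : (Y.powerset.filter (fun c => wt (sm c) Z ≠ 0)).card ≤ Y.powerset.card :=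
      card_le_card (filter_subset _ _)
    rw [card_powerset] at h3
    have h4 : 2 ^ Y.card ≤ 2 ^ y := Nat.pow_le_pow_right (by norm_num) hY
    exact_mod_cast h3.trans h4

/-! ### sums over leaves -/

theorem leaf_sum {X : Type} [Fintype X] (A : Finset X) (f : X → Finset X)
    (h1 : ∀ x ∈ A, x ∈ f x) (h2 : ∀ x ∈ A, f x ⊆ A) (h3 : ∀ x ∈ A, ∀ x' ∈ f x, f x' = f x)
    (g h : X → ℝ) (hg : ∀ x ∈ A, ∑ x' ∈ f x, g x' ≤ ∑ x' ∈ f x, h x') :
    ∑ x ∈ A, g x ≤ ∑ x ∈ A, h x := by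
  have key : ∀ (e : X → ℝ), ∑ x ∈ A, e x = ∑ c ∈ A.image f, ∑ x ∈ c, e x := by
    intro e
    rw [← sum_fiberwise_of_maps_to (t := A.image f) (g := f) (fun x hx => mem_image_of_mem f hx)]
    refine sum_congr rfl fun c hc => ?_
    obtain ⟨x, hx, rfl⟩ := mem_image.1 hc
    refine sum_congr ?_ fun _ _ => rfl
    ext x'
    rw [mem_filter]
    constructor
    · rintro ⟨hx', he⟩
      rw [← he]
      exact h1 x' hx'
    · intro hx'
      exact ⟨h2 x hx hx', h3 x hx x' hx'⟩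
  rw [key g, key h]
  refine sum_le_sum fun c hc => ?_
  obtain ⟨x, hx, rfl⟩ := mem_image.1 hc
  exact hg x hx

end Pool.Agent.Helper99.Aff
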