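import Pool.Agent.Helper99.Aff.Stg

set_option autoImplicit false
set_option linter.unusedSectionVars false

/-!
# An oracle relative to which, together with its multilinear extension, there are no complete sets
-/

namespace Pool.Agent.Helper99.Aff

open Finset MvPolynomial Classical Pool.Agent.Helper56.PT Pool.Agent.Helper99.Alg

variable {ι : Type} {K : ι → Type} [∀ i, Field (K i)]

/-- a state of the construction -/
structure Sta2 (dec : List Bool → Query ι K) where
  A : List Bool → Bool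
  L : ℕ
  good : Good2 dec A L

/-- the initial state -/
noncomputable def sta20 (dec : List Bool → Query ι K) : Sta2 dec where
  A := dfl
  L := 0
  good := ⟨fun _ _ => rfl, fun _ x => Or.inr (Or.inl (DEA2_dfl _ x))⟩

theorem exists_limit2 [∀ i, Finite (K i)] [∀ i, CharP (K i) 2] {dec : List Bool → Query ι K}
    (hdec : ∀ s, (dec s).m ≤ s.length) (hcK : ∀ s, Nat.card (K (dec s).i) ≤ 2 ^ (s.length + 1)) :
    ∃ A : List Bool → Bool, (∀ (P : GD) (g : Prog) (e : ℕ), ReqA2 dec P g e A) ∧
      ∀ (P : GD) (x : List Bool), DEA2 A (nG P) x true ∨ DEA2 A (nG P) x false ∨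
        ¬ Alive (OA dec A) P := by
  obtain ⟨en, hen⟩ := exists_surjective_nat (GD × Prog × ℕ)
  have hst : ∀ (s : ℕ) (D : Sta2 dec), ∃ D' : Sta2 dec, D.L < D'.L ∧ Lo D.L D.A D'.A ∧
      ∀ A'', Lo D'.L D'.A A'' → ReqA2 dec (en s).1 (en s).2.1 (en s).2.2 A'' := by
    intro s D
    obtain ⟨A', L', h1, h2, h3, h4⟩ :=
      stage2 hdec hcK D.good (en s).1 (en s).2.1 (en s).2.2
    exact ⟨⟨A', L', h2⟩, h1, h3, h4⟩
  choose nx hnx1 hnx2 hnx3 using hst
  let sq : ℕ → Sta2 dec := fun s => Nat.rec (sta20 dec) (fun s D => nx s D) s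
  have hsq : ∀ s, sq (s + 1) = nx s (sq s) := fun s => rfl
  have hL1 : ∀ s, (sq s).L < (sq (s + 1)).L := fun s => by rw [hsq]; exact hnx1 s _
  have hmono : StrictMono (fun s => (sq s).L) := strictMono_nat_of_lt_succ hL1
  have hge : ∀ s, s ≤ (sq s).L := fun s => hmono.id_le s
  have hlow : ∀ s t : ℕ, s ≤ t → Lo (sq s).L (sq s).A (sq t).A := by
    intro s t hst
    obtain ⟨d, rfl⟩ := Nat.exists_eq_add_of_le hst
    clear hst
    induction d with
    | zero => exact Lo.refl _ _
    | succ d ih =>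
      refine ih.trans ?_
      rw [← add_assoc, hsq]
      exact (hnx2 (s + d) (sq (s + d))).mono (hmono.monotone (Nat.le_add_right s d))
  set A : List Bool → Bool := fun w => (sq (w.length + 1)).A w with hA
  have hlim : ∀ s, Lo (sq s).L (sq s).A A := by
    intro s w hw
    rcases le_total s (w.length + 1) with h | h
    · exact hlow s _ h w hw
    · exact (hlow _ s h w (lt_of_lt_of_le (Nat.lt_succ_self _) (hge _))).symm
  refine ⟨A, fun P g e => ?_, fun P x => ?_⟩
  · obtain ⟨s, hs⟩ := hen (P, g, e)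
    have h1 := hnx3 s (sq s) A (hlim (s + 1))
    rw [hs] at h1
    exact h1
  · set s := bl2 (nG P) x ((x.length + 2) ^ 3) + 1 with hs
    have hb : ∀ (b e : Bool) (r : List Bool), r.length = (x.length + 2) ^ 3 →
        A (sk (nG P) x b e r) = (sq s).A (sk (nG P) x b e r) := by
      intro b e r hr
      refine hlim s _ ?_
      have h1 : (sk (nG P) x b e r).length ≤ bl2 (nG P) x ((x.length + 2) ^ 3) :=
        sk_len_le _ _ _ _ hr
      have h2 := hge s
      omega
    rcases (sq s).good.leg P x with h | h | h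
    · exact Or.inl (DEA2_congr hb h)
    · exact Or.inr (Or.inl (DEA2_congr hb h))
    · exact Or.inr (Or.inr (h A (hlim s)))

/-! ### the test languages are in ZPP -/

/-- a machine that reads both bits of a position -/
theorem exists_query2 (A : List Bool → Bool) (n : ℕ) (b : Bool) : ∃ (p : Prog) (l : ℕ),
    TimeBd A p 3 l ∧ ∀ y r : List Bool, r.length = (y.length + 2) ^ 3 →
      (Accepts A p y r ↔ both A n y b r) := by
  obtain ⟨p0, l0, ht0, h0⟩ := exists_query A (kT (2 * n + false.toNat) b)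
  obtain ⟨p1, l1, ht1, h1⟩ := exists_query A (kT (2 * n + true.toNat) b)
  refine ⟨Prog.ite p0 p1 Prog.nil, l0 + l1 + 2, fun x r hr => ?_, fun y r hr => ?_⟩
  · obtain ⟨z0, c0, hc0, hz0⟩ := ht0 x r hr
    obtain ⟨z1, c1, hc1, hz1⟩ := ht1 x r hr
    have e0 : (x.length + 2) ^ l0 + (x.length + 2) ^ l1 + 2 ≤ (x.length + 2) ^ (l0 + l1 + 2) := by
      have f0 : (x.length + 2) ^ l0 ≤ (x.length + 2) ^ (l0 + l1) :=
        Nat.pow_le_pow_right (by omega) (by omega)
      have f1 : (x.length + 2) ^ l1 ≤ (x.length + 2) ^ (l0 + l1) :=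
        Nat.pow_le_pow_right (by omega) (by omega)
      have f2 : 1 ≤ (x.length + 2) ^ (l0 + l1) := Nat.one_le_pow _ _ (by omega)
      have f3 : 2 ^ 2 ≤ (x.length + 2) ^ 2 := Nat.pow_le_pow_left (by omega) 2
      have f4 : (x.length + 2) ^ (l0 + l1) * 2 ^ 2 ≤ (x.length + 2) ^ (l0 + l1 + 2) := by
        rw [pow_add (x.length + 2) (l0 + l1) 2]
        exact Nat.mul_le_mul_left _ f3
      omega
    cases z0 with
    | leaf => exact ⟨_, c0 + 1 + 1, by omega, Run.iteFalse hz0 (Run.nil _)⟩
    | node a c => exact ⟨_, c0 + c1 + 1, by omega, Run.iteTrue hz0 hz1⟩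
  · have e0 := h0 y r hr
    have e1 := h1 y r hr
    have e2 : both A n y b r ↔ (Accepts A p0 y r ∧ Accepts A p1 y r) := by
      rw [e0, e1]
      exact Iff.rfl
    rw [e2]
    constructor
    · rintro ⟨a, c, m, hm⟩
      cases hm with
      | iteTrue k1 k2 => exact ⟨⟨_, _, _, k1⟩, ⟨_, _, _, k2⟩⟩
      | iteFalse k1 k2 => cases k2
    · rintro ⟨⟨a, c, m, k1⟩, ⟨a', c', m', k2⟩⟩
      exact ⟨_, _, _, Run.iteTrue k1 k2⟩

/-- a machine that reads the block -/
theorem inR_of_query2 {A : List Bool → Bool} {n : ℕ} (b : Bool)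
    (hx : ∀ x : List Bool, DEA2 A n x true ∨ DEA2 A n x false) :
    InR A (if b then Tst2 A n else (Tst2 A n)ᶜ) := by
  obtain ⟨p, l, ht, hacc⟩ := exists_query2 A n b
  have hmem : ∀ x : List Bool, x ∈ (if b then Tst2 A n else (Tst2 A n)ᶜ) ↔ DEA2 A n x b := by
    intro x
    cases b with
    | true =>
      simp only [if_true]
      constructor
      · intro h
        rcases hx x with h1 | h1
        · exact h1
        · exact absurd h h1.not_mem
      · exact fun h => h.mem
    | false =>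
      simp only [Bool.false_eq_true, if_false, Set.mem_compl_iff]
      constructor
      · intro h
        rcases hx x with h1 | h1
        · exact absurd h1.mem h
        · exact h1
      · exact fun h => h.not_mem
  refine ⟨p, 3, l, ht, fun x => ⟨fun h => ?_, fun h => ?_⟩⟩
  · rw [hmem] at h
    rw [Pr_congr (Q := both A n x b) (fun r hr => hacc x r hr)]
    exact lt_trans (by norm_num) h.1
  · rw [hmem] at h
    refine Pr_false _ (fun r hr h1 => ?_)
    rw [hacc x r hr] at h1
    have h2 : DEA2 A n x (!b) := by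
      rcases hx x with h3 | h3 <;> cases b <;> simp_all
    have h3 := h2.2 r hr
    rw [Bool.not_not] at h3
    exact h3 h1

theorem inZPP_of_query2 {A : List Bool → Bool} {n : ℕ}
    (hx : ∀ x : List Bool, DEA2 A n x true ∨ DEA2 A n x false) : InZPP A (Tst2 A n) :=
  ⟨inR_of_query2 true hx, inR_of_query2 false hx⟩

theorem inBPP_of_query2 {A : List Bool → Bool} {n : ℕ}
    (hx : ∀ x : List Bool, DEA2 A n x true ∨ DEA2 A n x false) : InBPP A (Tst2 A n) := by
  obtain ⟨p, l, ht, hacc⟩ := exists_query2 A n true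
  refine ⟨p, 3, l, 1 / 4, by norm_num, ht, fun x => ?_⟩
  rcases hx x with h | h
  · have h1 : Pr ((x.length + 2) ^ 3) (fun r => Accepts A p x r ↔ x ∈ Tst2 A n) =
        Pr ((x.length + 2) ^ 3) (both A n x true) :=
      Pr_congr (fun r hr => by rw [hacc x r hr]; simp [h.mem])
    rw [h1]
    linarith [h.1]
  · have h1 : Pr ((x.length + 2) ^ 3) (fun r => Accepts A p x r ↔ x ∈ Tst2 A n) = 1 := by
      refine Pr_true _ (fun r hr => ?_)
      rw [hacc x r hr]
      have h2 := h.2 r hr
      rw [Bool.not_false] at h2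
      simp [h2, h.not_mem]
    rw [h1]
    norm_num

/-- the negative world -/
theorem neg_world2 [∀ i, Finite (K i)] [∀ i, CharP (K i) 2] {dec : List Bool → Query ι K}
    (hdec : ∀ s, (dec s).m ≤ s.length) (hcK : ∀ s, Nat.card (K (dec s).i) ≤ 2 ^ (s.length + 1)) :
    ∃ A : List Bool → Bool, ∀ L : Set (List Bool), InR (OA dec A) L ∨ InBPP (OA dec A) L →
        ∃ B : Set (List Bool), InZPP A B ∧ InBPP A B ∧ ¬ TRed (OA dec A) B L := by
  obtain ⟨A, h2, h3⟩ := exists_limit2 hdec hcK
  refine ⟨A, fun L hL => ?_⟩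
  obtain ⟨P, hP, rfl⟩ : ∃ P : GD, Alive (OA dec A) P ∧ Lang (OA dec A) P = L := by
    rcases hL with hL | hL
    · exact exists_GD_of_R hL
    · exact exists_GD_of_BPP hL
  have hx : ∀ x : List Bool, DEA2 A (nG P) x true ∨ DEA2 A (nG P) x false := by
    intro x
    rcases h3 P x with h | h | h
    · exact Or.inl h
    · exact Or.inr h
    · exact absurd hP h
  refine ⟨Tst2 A (nG P), inZPP_of_query2 hx, inBPP_of_query2 hx, ?_⟩
  rintro ⟨g, e, hf⟩
  exact h2 P g e hP hf

end Pool.Agent.Helper99.Aff
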