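import Pool.Agent.Helper99.Aff.Leaf

set_option autoImplicit false
set_option linter.unusedSectionVars false

/-!
# The refinement of classes, freezing of positions
-/

namespace Pool.Agent.Helper99.Aff

open Finset Classical

variable {V : Type} [Fintype V] {R : Type} [Fintype R]

/-- randomized computations with functionals as queries -/
structure PS (V R : Type) [Fintype V] [Fintype R] where
  qs : R → (V → St) → Finset (V → St)
  out : R → (V → St) → Prop
  q : ℕ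
  card_le : ∀ r x, (qs r x).card ≤ q
  det : ∀ r x x', Cl (qs r x) x x' → qs r x' = qs r x ∧ (out r x' ↔ out r x)

namespace PS

variable (S : PS V R)

/-- number of random strings with outcome 1 -/
noncomputable def acc (x : V → St) : ℝ := ((univ.filter (fun r => S.out r x)).card : ℝ)

/-- number of random strings with outcome 0 -/
noncomputable def rej (x : V → St) : ℝ := ((univ.filter (fun r => ¬ S.out r x)).card : ℝ)

theorem acc_add_rej (x : V → St) : S.acc x + S.rej x = Fintype.card R := by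
  have h : (univ.filter (fun r => S.out r x)).card + (univ.filter (fun r => ¬ S.out r x)).card =
      (univ : Finset R).card := card_filter_add_card_filter_not _
  rw [acc, rej, ← card_univ]
  exact_mod_cast h

/-- a gap at all contents -/
structure Gap (F : (V → St) → Prop) : Prop where
  pos : 0 < Fintype.card R
  one : ∀ x, F x → 3 / 4 * (Fintype.card R : ℝ) ≤ S.acc x
  zero : ∀ x, ¬ F x → S.acc x ≤ 1 / 4 * (Fintype.card R : ℝ)

/-- the leaf of `x` -/
noncomputable def leaf (Y : Finset (V → St)) (r : R) (x : V → St) : Finset (V → St) :=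
  univ.filter (fun x' => Cl (Y ∪ S.qs r x) x x')

theorem Cl_refl (Y : Finset (V → St)) (x : V → St) : Cl Y x x := fun _ _ => rfl

theorem Cl_union {Y Λ : Finset (V → St)} {x x' : V → St} :
    Cl (Y ∪ Λ) x x' ↔ Cl Y x x' ∧ Cl Λ x x' := by
  constructor
  · intro h
    exact ⟨fun l hl => h l (mem_union_left _ hl), fun l hl => h l (mem_union_right _ hl)⟩
  · rintro ⟨h1, h2⟩ l hl
    rcases mem_union.1 hl with h | h
    · exact h1 l h
    · exact h2 l h

theorem leaf_out {Y : Finset (V → St)} {r : R} {x x' : V → St} (h : x' ∈ S.leaf Y r x) :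
    S.out r x' ↔ S.out r x := by
  rw [leaf, mem_filter, Cl_union] at h
  exact (S.det r x x' h.2.2).2

theorem leaf_leaf {Y : Finset (V → St)} {r : R} {x x' : V → St} (h : x' ∈ S.leaf Y r x) :
    S.leaf Y r x' = S.leaf Y r x := by
  rw [leaf, mem_filter] at h
  have h1 := (S.det r x x' (Cl_union.1 h.2).2).1
  rw [leaf, leaf, h1, Cl_eq h.2]

/-- inequalities for all leaves can be added -/
theorem sum_leaves {Y : Finset (V → St)} {x₀ : V → St} {r : R} {w w' : V → St → ℝ}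
    {P P' : (V → St) → Prop} (a : ℝ)
    (h : ∀ x, Cl Y x₀ x → ¬ S.out r x →
      a * Ms w (fun x' => Cl (Y ∪ S.qs r x) x x' ∧ P x') ≤
      Ms w' (fun x' => Cl (Y ∪ S.qs r x) x x' ∧ P' x')) :
    a * Ms w (fun x => Cl Y x₀ x ∧ (¬ S.out r x ∧ P x)) ≤
      Ms w' (fun x => Cl Y x₀ x ∧ (¬ S.out r x ∧ P' x)) := by
  have h3 : ∀ (x : V → St), ¬ S.out r x → ∀ (a : ℝ) (v : V → St → ℝ) (P : (V → St) → Prop),
      ∑ x' ∈ S.leaf Y r x, (if ¬ S.out r x' ∧ P x' then a * Wt v x' else 0) =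
      a * Ms v (fun x' => Cl (Y ∪ S.qs r x) x x' ∧ P x') := by
    intro x ho a v P
    rw [leaf, sum_filter, Ms, mul_sum]
    refine sum_congr rfl fun x' _ => ?_
    by_cases h4 : Cl (Y ∪ S.qs r x) x x'
    · have h5 : ¬ S.out r x' := fun h6 => ho ((S.leaf_out (Y := Y) (r := r) (x := x)
        (by rw [leaf, mem_filter]; exact ⟨mem_univ _, h4⟩)).1 h6)
      simp [h4, h5]
    · simp [h4]
  have h1 := leaf_sum (univ.filter (fun x => Cl Y x₀ x)) (S.leaf Y r)
    (fun x _ => by rw [leaf, mem_filter]; exact ⟨mem_univ _, Cl_refl _ _⟩)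
    (fun x hx => by
      intro x' hx'
      rw [mem_filter] at hx ⊢
      rw [leaf, mem_filter, Cl_union] at hx'
      rw [Cl_eq hx.2]
      exact ⟨mem_univ _, hx'.2.1⟩)
    (fun x _ x' hx' => S.leaf_leaf hx')
    (fun x => if ¬ S.out r x ∧ P x then a * Wt w x else 0)
    (fun x => if ¬ S.out r x ∧ P' x then 1 * Wt w' x else 0)
    (fun x hx => by
      rw [mem_filter] at hx
      by_cases ho : S.out r x
      · rw [sum_eq_zero, sum_eq_zero]
        · intro x' hx'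
          rw [if_neg]
          rintro ⟨h1, _⟩
          exact h1 ((S.leaf_out hx').2 ho)
        · intro x' hx'
          rw [if_neg]
          rintro ⟨h1, _⟩
          exact h1 ((S.leaf_out hx').2 ho)
      · have h2 := h x hx.2 ho
        rw [h3 x ho, h3 x ho, one_mul]
        exact h2)
  simp only [sum_filter] at h1
  have h4 : ∀ (a : ℝ) (v : V → St → ℝ) (P : (V → St) → Prop),
      ∑ x, (if Cl Y x₀ x then (if ¬ S.out r x ∧ P x then a * Wt v x else 0) else 0) =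
      a * Ms v (fun x => Cl Y x₀ x ∧ (¬ S.out r x ∧ P x)) := by
    intro a v P
    rw [Ms, mul_sum]
    refine sum_congr rfl fun x _ => ?_
    by_cases h5 : Cl Y x₀ x <;> by_cases h6 : ¬ S.out r x ∧ P x <;> simp [h5, h6]
  rw [h4, h4, one_mul] at h1
  exact h1

/-- weighted mass -/
noncomputable def Sm (w : V → St → ℝ) (g : (V → St) → ℝ) (A : (V → St) → Prop) : ℝ :=
  ∑ x, if A x then g x * Wt w x else 0

/-- exchanging the sums -/
theorem sum_rej (w : V → St → ℝ) (A P : (V → St) → Prop) :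
    ∑ r, Ms w (fun x => A x ∧ (¬ S.out r x ∧ P x)) = Sm w S.rej (fun x => A x ∧ P x) := by
  simp only [Ms, Sm]
  rw [sum_comm]
  refine sum_congr rfl fun x _ => ?_
  by_cases h : A x ∧ P x
  · rw [if_pos h, rej, card_eq_sum_ones, Nat.cast_sum, sum_mul, sum_filter]
    refine sum_congr rfl fun r _ => ?_
    by_cases ho : S.out r x <;> simp [h.1, h.2, ho]
  · rw [if_neg h]
    refine sum_eq_zero fun r _ => ?_
    rw [if_neg]
    rintro ⟨h1, _, h2⟩
    exact h ⟨h1, h2⟩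

theorem sum_le_Ms {w : V → St → ℝ} (hw : ∀ u σ, 0 ≤ w u σ) {A : (V → St) → Prop}
    {g : (V → St) → ℝ} {a : ℝ} (h : ∀ x, A x → g x ≤ a) :
    Sm w g A ≤ a * Ms w A := by
  rw [Sm, Ms, mul_sum]
  refine sum_le_sum fun x _ => ?_
  split_ifs with hx
  · exact mul_le_mul_of_nonneg_right (h x hx) (Wt_nonneg hw x)
  · rw [mul_zero]

theorem Ms_le_sum {w : V → St → ℝ} (hw : ∀ u σ, 0 ≤ w u σ) {A : (V → St) → Prop}
    {g : (V → St) → ℝ} {a : ℝ} (h : ∀ x, A x → a ≤ g x) :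
    a * Ms w A ≤ Sm w g A := by
  rw [Sm, Ms, mul_sum]
  refine sum_le_sum fun x _ => ?_
  split_ifs with hx
  · exact mul_le_mul_of_nonneg_right (h x hx) (Wt_nonneg hw x)
  · rw [mul_zero]

variable {S}

theorem Gap.rej_one {F : (V → St) → Prop} (hG : S.Gap F) {x : V → St} (h : F x) :
    S.rej x ≤ 1 / 4 * (Fintype.card R : ℝ) := by
  have h1 := S.acc_add_rej x
  have h2 := hG.one x h
  linarith

theorem Gap.rej_zero {F : (V → St) → Prop} (hG : S.Gap F) {x : V → St} (h : ¬ F x) :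
    3 / 4 * (Fintype.card R : ℝ) ≤ S.rej x := by
  have h1 := S.acc_add_rej x
  have h2 := hG.zero x h
  linarith

theorem rej_le (x : V → St) : S.rej x ≤ Fintype.card R := by
  have h1 := S.acc_add_rej x
  have h2 : 0 ≤ S.acc x := Nat.cast_nonneg _
  linarith

/-- the odds can be halved -/
theorem refine_one {F : (V → St) → Prop} (hG : S.Gap F) {w : V → St → ℝ}
    (hw : ∀ u σ, 0 ≤ w u σ) {Y : Finset (V → St)} {x₀ : V → St} {θ : ℝ} (hθ : 0 < θ)
    (h0 : 0 < Ms w (fun x => Cl Y x₀ x ∧ ¬ F x))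
    (h1 : Ms w (fun x => Cl Y x₀ x ∧ F x) ≤ θ * Ms w (fun x => Cl Y x₀ x ∧ ¬ F x)) :
    ∃ (Λ : Finset (V → St)) (x₁ : V → St), Λ.card ≤ S.q ∧ Cl Y x₀ x₁ ∧ 0 < Wt w x₁ ∧
      0 < Ms w (fun x => Cl (Y ∪ Λ) x₁ x ∧ ¬ F x) ∧
      Ms w (fun x => Cl (Y ∪ Λ) x₁ x ∧ F x) ≤
        θ / 2 * Ms w (fun x => Cl (Y ∪ Λ) x₁ x ∧ ¬ F x) := by
  by_contra hn
  push Not at hn
  have hR : (0 : ℝ) < Fintype.card R := by exact_mod_cast hG.pos
  -- every leaf
  have hleaf : ∀ (r : R) (x : V → St), Cl Y x₀ x →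
      θ / 2 * Ms w (fun x' => Cl (Y ∪ S.qs r x) x x' ∧ ¬ F x') ≤
        Ms w (fun x' => Cl (Y ∪ S.qs r x) x x' ∧ F x') := by
    intro r x hx
    by_cases h2 : 0 < Ms w (fun x' => Cl (Y ∪ S.qs r x) x x' ∧ ¬ F x')
    · obtain ⟨x₁, ⟨hx1, hx2⟩, hx3⟩ := Ms_pos hw h2
      have h3 := hn (S.qs r x) x₁ (S.card_le r x)
        (by rw [Cl_eq hx]; exact (Cl_union.1 hx1).1) hx3 (by rw [← Cl_eq hx1]; exact h2)
      rw [← Cl_eq hx1] at h3
      exact h3.le
    · have h3 : Ms w (fun x' => Cl (Y ∪ S.qs r x) x x' ∧ ¬ F x') = 0 :=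
        le_antisymm (not_lt.1 h2) (Ms_nonneg hw _)
      rw [h3, mul_zero]
      exact Ms_nonneg hw _
  have hr : ∀ r, θ / 2 * Ms w (fun x => Cl Y x₀ x ∧ (¬ S.out r x ∧ ¬ F x)) ≤
      Ms w (fun x => Cl Y x₀ x ∧ (¬ S.out r x ∧ F x)) := fun r =>
    S.sum_leaves (P := fun x => ¬ F x) (P' := F) (θ / 2) (fun x hx _ => hleaf r x hx)
  have hsum : θ / 2 * ∑ r, Ms w (fun x => Cl Y x₀ x ∧ (¬ S.out r x ∧ ¬ F x)) ≤
      ∑ r, Ms w (fun x => Cl Y x₀ x ∧ (¬ S.out r x ∧ F x)) := by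
    rw [mul_sum]
    exact sum_le_sum fun r _ => hr r
  rw [S.sum_rej, S.sum_rej] at hsum
  have h2 := Ms_le_sum (w := w) hw (A := fun x => Cl Y x₀ x ∧ ¬ F x) (g := S.rej)
    (a := 3 / 4 * (Fintype.card R : ℝ)) (fun x hx => hG.rej_zero hx.2)
  have h3 := sum_le_Ms (w := w) hw (A := fun x => Cl Y x₀ x ∧ F x) (g := S.rej)
    (a := 1 / 4 * (Fintype.card R : ℝ)) (fun x hx => hG.rej_one hx.2)
  set M0 := Ms w (fun x => Cl Y x₀ x ∧ ¬ F x)
  set M1 := Ms w (fun x => Cl Y x₀ x ∧ F x)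
  have h4 : θ / 2 * (3 / 4 * (Fintype.card R : ℝ) * M0) ≤ 1 / 4 * (Fintype.card R : ℝ) * M1 :=
    ((mul_le_mul_of_nonneg_left h2 (by positivity)).trans hsum).trans h3
  have h5 : 1 / 4 * (Fintype.card R : ℝ) * M1 ≤ 1 / 4 * (Fintype.card R : ℝ) * (θ * M0) :=
    mul_le_mul_of_nonneg_left h1 (by positivity)
  have h6 : 0 < (Fintype.card R : ℝ) * θ * M0 := by positivity
  nlinarith

end PS

end Pool.Agent.Helper99.Aff
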