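import Pool.Agent.Helper99.Aff.Law

set_option autoImplicit false
set_option linter.unusedSectionVars false

/-!
# The process
-/

namespace Pool.Agent.Helper99.Aff

open Finset Classical

variable {V : Type} [Fintype V] {R : Type} [Fintype R]

/-! ### parameters -/

def s1 (q : ℕ) : ℕ := 8 * (q + 9)
def NN (q : ℕ) : ℕ := 1000 * ((q + 1) * s1 q)
def yy (q : ℕ) : ℕ := 5 * q * NN q
def s2 (q : ℕ) : ℕ := 8 * (yy q + q + 9)
def tt (q : ℕ) : ℕ := 2 * s2 q + (q + 1) * s1 q + 1

theorem pow_small {a s : ℕ} (h : 8 * (a + 9) ≤ s) : (2 : ℝ) ^ a * (11 / 12) ^ s ≤ 1 / 512 := by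
  have h1 : ((11 : ℝ) / 12) ^ s ≤ (11 / 12) ^ (8 * (a + 9)) :=
    pow_le_pow_of_le_one (by norm_num) (by norm_num) h
  have h2 : ((11 : ℝ) / 12) ^ (8 * (a + 9)) ≤ (1 / 2) ^ (a + 9) := by
    rw [pow_mul]
    exact pow_le_pow_left₀ (by norm_num) (by norm_num) _
  have h3 : (2 : ℝ) ^ a * (1 / 2) ^ (a + 9) = 1 / 512 := by
    rw [pow_add, ← mul_assoc, ← mul_pow]
    norm_num
  calc (2 : ℝ) ^ a * (11 / 12) ^ s ≤ 2 ^ a * (1 / 2) ^ (a + 9) :=
        mul_le_mul_of_nonneg_left (h1.trans h2) (by positivity)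
    _ = 1 / 512 := h3

theorem NN_pos (q : ℕ) : 0 < NN q := by
  rw [NN, s1]; positivity

/-- the time -/
noncomputable def pj (q j : ℕ) : ℝ := 15 / 16 * ((j : ℝ) / NN q)

theorem pj_nonneg (q j : ℕ) : 0 ≤ pj q j := by rw [pj]; positivity

theorem pj_le {q j : ℕ} (h : j ≤ NN q) : pj q j ≤ 15 / 16 := by
  have h1 : (0 : ℝ) < NN q := by exact_mod_cast NN_pos q
  have h2 : (j : ℝ) / NN q ≤ 1 := by
    rw [div_le_one h1]
    exact_mod_cast h
  rw [pj]
  linarith

theorem law_ratio {q j : ℕ} (h : j < NN q) {W₁ Z : Finset V} {x₀ : V → St} {u : V} (hu : u ∉ Z)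
    (σ : St) : (1 - 15 / (NN q : ℝ)) * lw W₁ (pj q j) Z x₀ u σ ≤ lw W₁ (pj q (j + 1)) Z x₀ u σ := by
  have hN : (0 : ℝ) < NN q := by exact_mod_cast NN_pos q
  have hN15 : (0 : ℝ) < 15 / (NN q : ℝ) := by positivity
  rw [lw, lw, if_neg hu, if_neg hu]
  by_cases h1 : u ∈ W₁
  · rw [if_pos h1, if_pos h1, fp, fp]
    have hp := pj_le h.le
    have hp0 := pj_nonneg q j
    have e : pj q (j + 1) = pj q j + 15 / (NN q : ℝ) / 16 := by
      rw [pj, pj]; push_cast; ring
    split_ifs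
    · rw [e]; nlinarith
    · rw [e]; nlinarith
  · rw [if_neg h1, if_neg h1]
    have h2 := fp_nonneg (p := 0) le_rfl (by norm_num) σ
    nlinarith

theorem card_bd (q : ℕ) {n : ℕ} (h : n ≤ (q + 1) * s1 q) :
    (985 : ℝ) / 1000 ≤ (1 - 15 / (NN q : ℝ)) ^ n := by
  have hN : (0 : ℝ) < NN q := by exact_mod_cast NN_pos q
  have h1 : (1000 : ℝ) * n ≤ NN q := by
    rw [NN]
    exact_mod_cast Nat.mul_le_mul_left 1000 h
  have hN0 : (15 : ℝ) ≤ NN q := by
    have h15 : 15 ≤ (q + 1) * s1 q := by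
      rw [s1]
      nlinarith [Nat.zero_le q]
    have h16 : 15 ≤ NN q := by
      rw [NN]
      omega
    exact_mod_cast h16
  have h2 := one_add_mul_le_pow (a := -(15 / (NN q : ℝ))) (by
    have : 15 / (NN q : ℝ) ≤ 1 := by
      rw [div_le_one hN]; linarith
    linarith) n
  have h3 : (n : ℝ) * (15 / (NN q : ℝ)) ≤ 15 / 1000 := by
    rw [mul_div_assoc', div_le_div_iff₀ hN (by norm_num)]
    nlinarith
  rw [sub_eq_add_neg]
  linarith

/-- one step of the time -/
theorem Inv.step {S : PS V R} {W₁ : Finset V} {F : (V → St) → Prop} (hG : S.Gap F) {j : ℕ}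
    (hj : j < NN S.q) {Z : Finset V} {Y : Finset (V → St)} {x₀ : V → St}
    (h : Inv W₁ F (pj S.q j) (1 / 2 ^ 5) Z Y x₀) (hL : Long (tt S.q) Z Y)
    (hY : Y.card ≤ yy S.q) : Inv W₁ F (pj S.q (j + 1)) 1 Z Y x₀ := by
  set q := S.q with hq
  have hN : (0 : ℝ) < NN q := by exact_mod_cast NN_pos q
  have hR : (0 : ℝ) < Fintype.card R := by exact_mod_cast hG.pos
  set w := lw W₁ (pj q j) Z x₀ with hw
  set w' := lw W₁ (pj q (j + 1)) Z x₀ with hw'
  have hLw : Lw (11 / 12) Z x₀ w := lw_Lw (pj_nonneg _ _) (pj_le hj.le) x₀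
  have hLw' : Lw (11 / 12) Z x₀ w' := lw_Lw (pj_nonneg _ _) (pj_le hj) x₀
  have hθ : 0 ≤ 1 - 15 / (NN q : ℝ) := by
    have h1 := card_bd q (n := 1) (by
      rw [s1]
      nlinarith [Nat.zero_le q])
    rw [pow_one] at h1
    linarith
  have hθ0 : 0 < 1 - 15 / (NN q : ℝ) := by
    have h1 := card_bd q (n := 1) (by
      rw [s1]
      nlinarith [Nat.zero_le q])
    rw [pow_one] at h1
    linarith
  -- leaves
  have hleaf : ∀ (r : R) (x : V → St),
      977 / 1000 * Ms w (Cl (Y ∪ S.qs r x) x) ≤ Ms w' (Cl (Y ∪ S.qs r x) x) := by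
    intro r x
    obtain ⟨Q, hQ1, hQ2⟩ := closure (q := q) (S.card_le r x) hL (s₁ := s1 q) (by rw [tt]; omega)
    have he := err_bound (q := q) (ρ := 11 / 12) (s₂ := s2 q) (by norm_num) (by norm_num)
      (S.card_le r x) hY
      hL (by rw [tt]; omega) hQ2
    have he1 := pow_small (a := q) (s := s1 q) (by rw [s1])
    have he2 := pow_small (a := yy q + q) (s := s2 q) (by rw [s2])
    have h1 := leaf_ratio (θ := 15 / (NN q : ℝ)) (E := 1 / 256) (by norm_num) (by positivity) hθ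
      (by norm_num) hLw hLw' (fun u hu σ => law_ratio hj hu σ)
      (le_trans he (by linarith)) x
    refine le_trans ?_ h1
    refine mul_le_mul_of_nonneg_right ?_ (Ms_nonneg hLw.nn _)
    have h2 := card_bd q hQ1
    nlinarith
  have hr : ∀ r, 977 / 1000 * Ms w (fun x => Cl Y x₀ x ∧ (¬ S.out r x ∧ True)) ≤
      Ms w' (fun x => Cl Y x₀ x ∧ (¬ S.out r x ∧ True)) := fun r =>
    S.sum_leaves (P := fun _ => True) (P' := fun _ => True) _ (fun x _ _ => by
      simpa using hleaf r x)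
  have hsum : 977 / 1000 * ∑ r, Ms w (fun x => Cl Y x₀ x ∧ (¬ S.out r x ∧ True)) ≤
      ∑ r, Ms w' (fun x => Cl Y x₀ x ∧ (¬ S.out r x ∧ True)) := by
    rw [mul_sum]
    exact sum_le_sum fun r _ => hr r
  -- lower bound
  have hlow : 3 / 4 * (Fintype.card R : ℝ) * Ms w (fun x => Cl Y x₀ x ∧ ¬ F x) ≤
      ∑ r, Ms w (fun x => Cl Y x₀ x ∧ (¬ S.out r x ∧ True)) := by
    refine (PS.Ms_le_sum hLw.nn (A := fun x => Cl Y x₀ x ∧ ¬ F x) (g := S.rej)
      (fun x hx => hG.rej_zero hx.2)).trans ?_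
    rw [← S.sum_rej w (Cl Y x₀) (fun x => ¬ F x)]
    refine sum_le_sum fun r _ => Ms_mono hLw.nn fun x hx => ⟨hx.1, hx.2.1, trivial⟩
  have hup : ∑ r, Ms w' (fun x => Cl Y x₀ x ∧ (¬ S.out r x ∧ True)) ≤
      (Fintype.card R : ℝ) * Ms w' (fun x => Cl Y x₀ x ∧ ¬ F x) +
        1 / 4 * (Fintype.card R : ℝ) * Ms w' (fun x => Cl Y x₀ x ∧ F x) := by
    have e : ∀ r, Ms w' (fun x => Cl Y x₀ x ∧ (¬ S.out r x ∧ True)) =
        Ms w' (fun x => Cl Y x₀ x ∧ (¬ S.out r x ∧ ¬ F x)) +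
        Ms w' (fun x => Cl Y x₀ x ∧ (¬ S.out r x ∧ F x)) := by
      intro r
      rw [Ms_split_and w' (fun x => Cl Y x₀ x ∧ (¬ S.out r x ∧ True)) F, add_comm]
      congr 1
      · refine Ms_congr fun x _ => ?_
        tauto
      · refine Ms_congr fun x _ => ?_
        tauto
    simp only [e]
    rw [sum_add_distrib, S.sum_rej w' (Cl Y x₀) (fun x => ¬ F x), S.sum_rej w' (Cl Y x₀) F]
    exact add_le_add
      (PS.sum_le_Ms hLw'.nn (fun x _ => PS.rej_le x))
      (PS.sum_le_Ms hLw'.nn (fun x hx => hG.rej_one hx.2))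
  -- the base class
  have hE : (2 : ℝ) ^ yy q * (11 / 12) ^ tt q ≤ 1 / 512 := pow_small (by rw [tt, s2]; omega)
  have b1 := base_est (by norm_num) (by norm_num) hLw hL hY hE
  have b2 := base_est (by norm_num) (by norm_num) hLw' hL hY hE
  have hp : (0 : ℝ) < 2 ^ Y.card := by positivity
  have b3 := (abs_le.1 b1).1
  have b4 := (abs_le.1 b2).2
  have b5 := (abs_le.1 b2).1
  set M := Ms w (Cl Y x₀) with hM
  set M' := Ms w' (Cl Y x₀) with hM'
  have hM'pos : 0 < M' := by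
    by_contra hn
    have : (2 : ℝ) ^ Y.card * M' ≤ 0 := mul_nonpos_of_nonneg_of_nonpos hp.le (not_lt.1 hn)
    linarith
  have hMM : 511 / 513 * M' ≤ M := by
    have h1 : (2 : ℝ) ^ Y.card * (511 / 513 * M') ≤ 2 ^ Y.card * M := by
      have h2 : (2 : ℝ) ^ Y.card * M' ≤ 513 / 512 := by linarith
      have h3 : (511 : ℝ) / 512 ≤ 2 ^ Y.card * M := by linarith
      calc (2 : ℝ) ^ Y.card * (511 / 513 * M') = 511 / 513 * (2 ^ Y.card * M') := by ring
        _ ≤ 511 / 513 * (513 / 512) := mul_le_mul_of_nonneg_left h2 (by norm_num)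
        _ ≤ 511 / 512 := by norm_num
        _ ≤ _ := h3
    exact le_of_mul_le_mul_left h1 hp
  have s1 := Ms_split_and w (Cl Y x₀) F
  have s2 := Ms_split_and w' (Cl Y x₀) F
  have i1 := h.h1
  rw [← hw] at i1
  set M0 := Ms w (fun x => Cl Y x₀ x ∧ ¬ F x) with hM0
  set M1 := Ms w (fun x => Cl Y x₀ x ∧ F x) with hM1
  set M0' := Ms w' (fun x => Cl Y x₀ x ∧ ¬ F x) with hM0'
  set M1' := Ms w' (fun x => Cl Y x₀ x ∧ F x) with hM1'
  have hM1'0 : 0 ≤ M1' := Ms_nonneg hLw'.nn _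
  have k1 : 977 / 1000 * (3 / 4 * (Fintype.card R : ℝ) * M0) ≤
      (Fintype.card R : ℝ) * M0' + 1 / 4 * (Fintype.card R : ℝ) * M1' :=
    ((mul_le_mul_of_nonneg_left hlow (by norm_num)).trans hsum).trans hup
  have k2 : (Fintype.card R : ℝ) * (977 / 1000 * (3 / 4 * M0)) ≤
      (Fintype.card R : ℝ) * (M0' + 1 / 4 * M1') := by linarith
  have k3 := le_of_mul_le_mul_left k2 hR
  norm_num at i1
  have k4 : M ≤ 33 / 32 * M0 := by rw [hM, s1]; linarith
  have k6 : M' = M1' + M0' := s2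
  have k5 : M1' ≤ M0' := by linarith
  refine ⟨?_, h.neu, ?_, ?_⟩
  · rw [Wt]
    refine prod_pos fun u _ => ?_
    have hp0 := h.pos
    have h1 : 0 < w u (x₀ u) := lt_of_le_of_ne (hLw.nn u _) (Wt_ne hp0.ne' u).symm
    by_cases hu : u ∈ Z
    · rw [lw, if_pos hu, dl, if_pos rfl]; norm_num
    · have h2 := law_ratio (W₁ := W₁) (x₀ := x₀) hj hu (x₀ u)
      exact lt_of_lt_of_le (mul_pos hθ0 h1) h2
  · rw [← hw', ← hM0']
    by_contra hn
    linarith
  · rw [← hw', ← hM0', ← hM1', one_mul]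
    exact k5

/-- the process -/
theorem process {S : PS V R} {W₁ : Finset V} {F : (V → St) → Prop} (hG : S.Gap F)
    (hst : Ms (fun _ : V => fp 0) F ≤ Ms (fun _ : V => fp 0) (fun x => ¬ F x)) :
    ∀ j ≤ NN S.q, ∃ (Z : Finset V) (Y : Finset (V → St)) (x₀ : V → St),
      Inv W₁ F (pj S.q j) 1 Z Y x₀ ∧ Long (tt S.q) Z Y ∧
      Z.card + tt S.q * Y.card ≤ 5 * S.q * tt S.q * j ∧ Y.card ≤ 5 * S.q * j := by
  intro j
  induction j with
  | zero =>
    intro _
    have hlaw : ∀ x₀ : V → St, lw W₁ (pj S.q 0) ∅ x₀ = fun _ : V => fp 0 := by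
      intro x₀
      funext u
      have : pj S.q 0 = 0 := by simp [pj]
      simp [lw, this]
    have hLw := lw_Lw (W₁ := W₁) (Z := ∅) (pj_nonneg S.q 0) (pj_le (Nat.zero_le _)) (fun _ => 0)
    rw [hlaw] at hLw
    have htot : Ms (fun _ : V => fp 0) (fun _ => True) = 1 := by
      have h1 := ms_class (fun _ : V => fp 0) ∅ (fun _ => 0)
      simp only [card_empty, pow_zero, one_mul, powerset_empty, sum_singleton, sm_empty, pr_zero,
        sg_zero, Pi.zero_apply, hat_zero, fp_sum, prod_const_one] at h1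
      rw [← h1]
      exact Ms_congr fun x _ => ⟨fun _ l hl => absurd hl (notMem_empty _), fun _ => trivial⟩
    have hsp := Ms_split_and (fun _ : V => fp 0) (fun _ => True) F
    simp only [true_and] at hsp
    have h0 : 0 < Ms (fun _ : V => fp 0) (fun x => ¬ F x) := by
      by_contra hn
      linarith
    obtain ⟨x₀, _, hx⟩ := Ms_pos hLw.nn h0
    have hcl : ∀ x, Cl (∅ : Finset (V → St)) x₀ x := fun x l hl => absurd hl (notMem_empty _)
    refine ⟨∅, ∅, x₀, ⟨?_, ?_, ?_, ?_⟩, ?_, by simp, by simp⟩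
    · rw [hlaw]; exact hx
    · intro u _ hb
      have h2 := Wt_ne hx.ne' u
      rw [hb] at h2
      simp [fp] at h2
    · rw [hlaw]
      simpa [hcl] using h0
    · rw [hlaw]
      simpa [hcl] using hst
    · intro c hc hne
      rw [subset_empty] at hc
      subst hc
      exact absurd hne not_nonempty_empty
  | succ j ih =>
    intro hj
    obtain ⟨Z, Y, x₀, h1, _, h3, h4⟩ := ih (by omega)
    have hp0 := pj_nonneg S.q j
    have hp1 := pj_le (q := S.q) (j := j) (by omega)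
    obtain ⟨Y1, x₁, h5, h6⟩ := h1.refine_pow hG hp0 hp1 5 one_pos
    obtain ⟨Z', Y', x₂, h7, h8, h9, h10⟩ := h5.longify hp0 hp1 (tt S.q) _ rfl
    have h11 : Y'.card ≤ 5 * S.q * (j + 1) := by
      rw [mul_add, mul_one]; omega
    refine ⟨Z', Y', x₂, h7.step hG (by omega) h8 (h11.trans ?_), h8, ?_, h11⟩
    · rw [yy]
      exact Nat.mul_le_mul_left _ hj
    · refine h9.trans ?_
      have h12 : tt S.q * Y1.card ≤ tt S.q * (Y.card + 5 * S.q) := Nat.mul_le_mul_left _ h6
      have h13 : 5 * S.q * tt S.q * (j + 1) = 5 * S.q * tt S.q * j + tt S.q * (5 * S.q) := by ring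
      rw [mul_add] at h12
      omega

/-- the end of the process -/
theorem par_main {S : PS V R} {W₁ : Finset V} {F : (V → St) → Prop} (hG : S.Gap F)
    (hst : Ms (fun _ : V => fp 0) F ≤ Ms (fun _ : V => fp 0) (fun x => ¬ F x))
    (hW : 18 * (5 * S.q * tt S.q * NN S.q) < W₁.card) :
    ∃ x : V → St, ¬ F x ∧ (∀ u ∉ W₁, x u ≠ bb) ∧
      3 * W₁.card < 4 * (W₁.filter (fun u => x u = bb)).card := by
  obtain ⟨Z, Y, x₀, h, hL, hZ, hY⟩ := process (W₁ := W₁) hG hst (NN S.q) le_rfl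
  set q := S.q with hq
  have hN : (0 : ℝ) < NN q := by exact_mod_cast NN_pos q
  have hpj : pj q (NN q) = 15 / 16 := by
    rw [pj, div_self hN.ne']; norm_num
  rw [hpj] at h
  set w := lw W₁ (15 / 16) Z x₀ with hw
  have hLw : Lw (11 / 12) Z x₀ w := lw_Lw (by norm_num) le_rfl x₀
  have hYy : Y.card ≤ yy q := hY
  have hE : (2 : ℝ) ^ yy q * (11 / 12) ^ tt q ≤ 1 / 512 := pow_small (by rw [tt, s2]; omega)
  have hE' : (2 : ℝ) ^ yy q * (11 / 12) ^ (tt q - 1) ≤ 1 / 512 := pow_small (by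
    rw [tt, s2]; omega)
  have b1 := (abs_le.1 (base_est (by norm_num) (by norm_num) hLw hL hYy hE)).1
  have hp : (0 : ℝ) < 2 ^ Y.card := by positivity
  set M := Ms w (Cl Y x₀) with hM
  have hM0 : 511 / 512 ≤ 2 ^ Y.card * M := by linarith
  have hMpos : 0 < M := by
    by_contra hn
    have : (2 : ℝ) ^ Y.card * M ≤ 0 := mul_nonpos_of_nonneg_of_nonpos hp.le (not_lt.1 hn)
    linarith
  have hsp := Ms_split_and w (Cl Y x₀) F
  have h1 := h.h1
  rw [← hw, one_mul] at h1
  have hhalf : 1 / 2 * M ≤ Ms w (fun x => Cl Y x₀ x ∧ ¬ F x) := by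
    rw [hM]; linarith
  -- one position
  have hone : ∀ u ∈ W₁, u ∉ Z → Ms w (fun x => Cl Y x₀ x ∧ x u ≠ bb) ≤ 1 / 15 * M := by
    intro u hu hz
    rw [Ms_split w _ u, sum_St]
    have hwu : w u = fp (15 / 16) := by
      rw [hw, lw, if_neg hz, if_pos hu]
    obtain ⟨e1, e2, e3, e4⟩ := fp_vals (15 / 16)
    rw [hwu, e1, e2, e3, e4]
    have hnn : ∀ σ a τ, 0 ≤ Function.update w u (dl σ) a τ := by
      intro σ a τ
      by_cases ha : a = u
      · subst ha
        rw [Function.update_self]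
        exact dl_nonneg _ _
      · rw [Function.update_of_ne ha]
        exact hLw.nn a τ
    have hz4 : Ms (Function.update w u (dl (1, 1))) (fun x => Cl Y x₀ x ∧ x u ≠ bb) = 0 := by
      rw [Ms]
      refine sum_eq_zero fun x _ => ?_
      split_ifs with hx
      · rw [Wt]
        refine prod_eq_zero (mem_univ u) ?_
        rw [Function.update_self, dl, if_neg]
        exact hx.2
      · rfl
    rw [hz4, mul_zero, add_zero]
    have hσ : ∀ σ, 2 ^ Y.card * Ms (Function.update w u (dl σ)) (fun x => Cl Y x₀ x ∧ x u ≠ bb) ≤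
        513 / 512 := by
      intro σ
      by_cases hpos : 0 < Ms (Function.update w u (dl σ)) (fun x => Cl Y x₀ x ∧ x u ≠ bb)
      · obtain ⟨x₁, ⟨hx1, _⟩, hx2⟩ := Ms_pos (hnn σ) hpos
        have hLw1 : Lw (11 / 12) (insert u Z) x₁ (Function.update w u (dl σ)) := by
          refine ⟨hnn σ, fun v => ?_, fun v hv => ?_, fun v hv χ hχ => ?_⟩
          · by_cases hvu : v = u
            · subst hvu; rw [Function.update_self]; exact dl_sum _
            · rw [Function.update_of_ne hvu]; exact hLw.one v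
          · have h2 := Wt_ne hx2.ne' v
            by_cases hvu : v = u
            · subst hvu
              rw [Function.update_self] at h2 ⊢
              rw [eq_of_dl h2]
            · rw [Function.update_of_ne hvu] at h2 ⊢
              have hvZ := (mem_insert.1 hv).resolve_left hvu
              rw [hLw.fr v hvZ] at h2 ⊢
              rw [eq_of_dl h2]
          · rw [mem_insert, not_or] at hv
            rw [Function.update_of_ne hv.1]
            exact hLw.ht v hv.2 χ hχ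
        have hL1 : Long (tt q - 1) (insert u Z) Y := by
          intro c hc hne
          have h2 := hL c hc hne
          have h3 := wt_le_add (sm c) Z {u}
          rw [card_singleton] at h3
          have h4 : Z ∪ {u} = insert u Z := by rw [union_comm]; rfl
          rw [h4] at h3
          have h5 : 1 ≤ tt q := by rw [tt]; omega
          omega
        have h3 := (abs_le.1 (base_est (by norm_num) (by norm_num) hLw1 hL1 hYy hE')).2
        rw [← Cl_eq hx1] at h3
        have h4 := Ms_mono (hnn σ) (A := fun x => Cl Y x₀ x ∧ x u ≠ bb) (B := Cl Y x₀)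
          (fun x hx => hx.1)
        have h5 := mul_le_mul_of_nonneg_left h4 hp.le
        linarith
      · have h2 : Ms (Function.update w u (dl σ)) (fun x => Cl Y x₀ x ∧ x u ≠ bb) = 0 :=
          le_antisymm (not_lt.1 hpos) (Ms_nonneg (hnn σ) _)
        rw [h2]; norm_num
    have k1 := hσ (0, 0)
    have k2 := hσ (0, 1)
    have k3 := hσ (1, 0)
    refine le_of_mul_le_mul_left ?_ hp
    nlinarith
  -- the number of other states
  have hZc : (Z.card : ℝ) ≤ ((5 * q * tt q * NN q : ℕ) : ℝ) := by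
    exact_mod_cast le_trans (Nat.le_add_right _ _) hZ
  have hWc : (18 : ℝ) * ((5 * q * tt q * NN q : ℕ) : ℝ) < W₁.card := by exact_mod_cast hW
  by_contra hn
  push Not at hn
  have hmany : ∀ x, Cl Y x₀ x ∧ ¬ F x → Wt w x ≠ 0 →
      (1 : ℝ) / 4 * W₁.card ≤ ((W₁.filter (fun u => x u ≠ bb)).card : ℝ) := by
    intro x hx hwx
    have hpos : 0 < Wt w x := lt_of_le_of_ne (Wt_nonneg hLw.nn x) hwx.symm
    have h2 := hn x hx.2 (lw_neu hpos h.neu)
    have h3 : (W₁.filter (fun u => x u = bb)).card + (W₁.filter (fun u => ¬ x u = bb)).card =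
        W₁.card := card_filter_add_card_filter_not _
    have h4 : W₁.card ≤ 4 * (W₁.filter (fun u => x u ≠ bb)).card := by
      have h5 : (W₁.filter (fun u => ¬ x u = bb)).card = (W₁.filter (fun u => x u ≠ bb)).card := rfl
      omega
    have h5 : (W₁.card : ℝ) ≤ 4 * ((W₁.filter (fun u => x u ≠ bb)).card : ℝ) := by exact_mod_cast h4
    linarith
  have hsum : ∑ u ∈ W₁, Ms w (fun x => Cl Y x₀ x ∧ x u ≠ bb) ≤
      (Z.card : ℝ) * M + (W₁.card : ℝ) * (1 / 15 * M) := by
    rw [← sum_filter_add_sum_filter_not W₁ (fun u => u ∈ Z)]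
    refine add_le_add ?_ ?_
    · refine (sum_le_card_nsmul _ _ M fun u _ => Ms_mono hLw.nn fun x hx => hx.1).trans ?_
      rw [nsmul_eq_mul]
      refine mul_le_mul_of_nonneg_right ?_ hMpos.le
      have : (W₁.filter (fun u => u ∈ Z)).card ≤ Z.card :=
        card_le_card fun u hu => (mem_filter.1 hu).2
      exact_mod_cast this
    · refine (sum_le_card_nsmul _ _ (1 / 15 * M) fun u hu => ?_).trans ?_
      · rw [mem_filter] at hu
        exact hone u hu.1 hu.2
      · rw [nsmul_eq_mul]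
        refine mul_le_mul_of_nonneg_right ?_ (by positivity)
        exact_mod_cast card_le_card (filter_subset _ _)
  have hge : (1 : ℝ) / 4 * W₁.card * Ms w (fun x => Cl Y x₀ x ∧ ¬ F x) ≤
      ∑ u ∈ W₁, Ms w (fun x => Cl Y x₀ x ∧ x u ≠ bb) := by
    simp only [Ms]
    rw [sum_comm, mul_sum]
    refine sum_le_sum fun x _ => ?_
    have hW0 := Wt_nonneg hLw.nn x
    by_cases hx : Cl Y x₀ x ∧ ¬ F x
    · rw [if_pos hx]
      refine le_trans (b := ((W₁.filter (fun u => x u ≠ bb)).card : ℝ) * Wt w x) ?_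
        (le_of_eq ?_)
      · rcases hW0.eq_or_lt with h3 | h3
        · rw [← h3]; simp
        · exact mul_le_mul_of_nonneg_right (hmany x hx h3.ne') hW0
      · rw [card_eq_sum_ones, Nat.cast_sum, sum_mul, sum_filter]
        refine sum_congr rfl fun u _ => ?_
        by_cases h3 : x u = bb <;> simp [hx.1, h3]
    · rw [if_neg hx, mul_zero]
      refine sum_nonneg fun u _ => ?_
      split_ifs
      · exact hW0
      · exact le_rfl
  have hW0 : (0 : ℝ) ≤ W₁.card := Nat.cast_nonneg _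
  have h2 : (1 : ℝ) / 4 * W₁.card * (1 / 2 * M) ≤
      (Z.card : ℝ) * M + (W₁.card : ℝ) * (1 / 15 * M) :=
    ((mul_le_mul_of_nonneg_left hhalf (by positivity)).trans hge).trans hsum
  have h3 : M * (1 / 8 * W₁.card - Z.card - 1 / 15 * W₁.card) ≤ 0 := by linarith
  have h4 : 0 < 1 / 8 * (W₁.card : ℝ) - Z.card - 1 / 15 * W₁.card := by linarith
  exact absurd h3 (not_le.2 (mul_pos hMpos h4))

end Pool.Agent.Helper99.Aff
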