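import Pool.Agent.Helper99.Aff.Cont2

set_option autoImplicit false
set_option linter.unusedSectionVars false

/-!
# One stage of the construction: multilinear extension, characteristic 2
-/

namespace Pool.Agent.Helper99.Aff

open Finset MvPolynomial Classical Pool.Agent.Helper56.PT Pool.Agent.Helper99.Alg

variable {ι : Type} {K : ι → Type} [∀ i, Field (K i)]

/-! ### the strings of a block -/

/-- the string with the bit `e` of the position `r` in the block `b` -/
def sk (n : ℕ) (x : List Bool) (b e : Bool) (r : List Bool) : List Bool :=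
  st (kT (2 * n + e.toNat) b) x r

theorem sk_inj {n n' : ℕ} {x x' r r' : List Bool} {b b' e e' : Bool}
    (h : sk n x b e r = sk n' x' b' e' r') : n = n' ∧ x = x' ∧ b = b' ∧ e = e' ∧ r = r' := by
  obtain ⟨h1, h2, h3⟩ := st_inj h
  obtain ⟨h4, h5⟩ := kT_inj h1
  have h6 : n = n' ∧ e = e' := by
    cases e <;> cases e' <;> simp only [Bool.toNat_false, Bool.toNat_true] at h4 <;>
      first | exact ⟨by omega, rfl⟩ | omega
  exact ⟨h6.1, h2, h5, h6.2, h3⟩

theorem sk_length (n : ℕ) (x : List Bool) (b e : Bool) (r : List Bool) :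
    (sk n x b e r).length = 2 * (2 * n + e.toNat + 2) + 2 * x.length + r.length + 2 := by
  rw [sk, length_st]
  simp [kT]

/-- both bits of the position `r` of the block `b` are one -/
def both (A : List Bool → Bool) (n : ℕ) (x : List Bool) (b : Bool) (r : List Bool) : Prop :=
  A (sk n x b false r) = true ∧ A (sk n x b true r) = true

/-- block `b` dense, the other block empty -/
def DEA2 (A : List Bool → Bool) (n : ℕ) (x : List Bool) (b : Bool) : Prop :=
  3 / 4 < Pr ((x.length + 2) ^ 3) (both A n x b) ∧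
    ∀ r : List Bool, r.length = (x.length + 2) ^ 3 → ¬ both A n x (!b) r

/-- the test language -/
def Tst2 (A : List Bool → Bool) (n : ℕ) : Set (List Bool) :=
  {x | ∃ r : List Bool, r.length = (x.length + 2) ^ 3 ∧ both A n x true r}

theorem DEA2.mem {A : List Bool → Bool} {n : ℕ} {x : List Bool} (h : DEA2 A n x true) :
    x ∈ Tst2 A n := by
  obtain ⟨r, hr, h1⟩ := Pr_exists (lt_trans (by norm_num) h.1)
  exact ⟨r, hr, h1⟩

theorem DEA2.not_mem {A : List Bool → Bool} {n : ℕ} {x : List Bool} (h : DEA2 A n x false) :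
    x ∉ Tst2 A n := by
  rintro ⟨r, hr, h1⟩
  exact h.2 r hr h1

theorem both_congr {A A' : List Bool → Bool} {n : ℕ} {x : List Bool} {b : Bool} {r : List Bool}
    (h : ∀ e : Bool, A' (sk n x b e r) = A (sk n x b e r)) :
    both A' n x b r ↔ both A n x b r := by
  rw [both, both, h, h]

theorem DEA2_congr {A A' : List Bool → Bool} {n : ℕ} {x : List Bool} {b : Bool}
    (h : ∀ (b e : Bool) (r : List Bool), r.length = (x.length + 2) ^ 3 →
      A' (sk n x b e r) = A (sk n x b e r)) (hA : DEA2 A n x b) : DEA2 A' n x b := by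
  refine ⟨?_, fun r hr => ?_⟩
  · rw [Pr_congr (Q := both A n x b) (fun r hr => both_congr (fun e => h b e r hr))]
    exact hA.1
  · rw [both_congr (fun e => h _ e r hr)]
    exact hA.2 r hr

theorem DEA2_dfl (n : ℕ) (x : List Bool) : DEA2 dfl n x false := by
  refine ⟨?_, fun r hr => ?_⟩
  · rw [Pr_true _ (fun r hr => ?_)]
    · norm_num
    · have h1 : ∀ e : Bool, dfl (sk n x false e r) = true := by
        intro e
        rw [dfl, decide_eq_true_eq]
        exact ⟨2 * n + e.toNat, x, r, rfl, hr⟩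
      exact ⟨h1 false, h1 true⟩
  · rintro ⟨h0, _⟩
    rw [dfl, decide_eq_true_eq] at h0
    obtain ⟨n', y, r', h, _⟩ := h0
    have h1 := (st_inj h).1
    have h2 := (kT_inj h1).2
    simp at h2

/-- the machine never keeps its time bound and gap -/
def Dead2 (dec : List Bool → Query ι K) (L : ℕ) (A : List Bool → Bool) (P : GD) : Prop :=
  ∀ A', Lo L A A' → ¬ Alive (OA dec A') P

/-- the invariant -/
structure Good2 (dec : List Bool → Query ι K) (A : List Bool → Bool) (L : ℕ) : Prop where
  dflt : ∀ w : List Bool, L ≤ w.length → A w = dfl w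
  leg : ∀ (P : GD) (x : List Bool), DEA2 A (nG P) x true ∨ DEA2 A (nG P) x false ∨ Dead2 dec L A P

/-- the requirement: the test language of `P` is not Turing reducible to the language of `P` by the
program `g` in time `(|x| + 2) ^ e` -/
def ReqA2 (dec : List Bool → Query ι K) (P : GD) (g : Prog) (e : ℕ) (A : List Bool → Bool) :
    Prop :=
  Alive (OA dec A) P → ¬ ∀ x : List Bool,
    RunLe (join (OA dec A) (chi (Lang (OA dec A) P))) g (enc x)
      (bit (chi (Tst2 A (nG P)) x)) ((x.length + 2) ^ e)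

theorem Dead2.mono {dec : List Bool → Query ι K} {L L' : ℕ} {A A' : List Bool → Bool} {P : GD}
    (h : Dead2 dec L A P) (hl : Lo L A A') (hL : L ≤ L') : Dead2 dec L' A' P :=
  fun A'' h'' => h A'' (hl.trans (h''.mono hL))

/-! ### the block -/

/-- the block of the machine number `n` and the input `x` -/
def blk2 (n : ℕ) (x : List Bool) (d : ℕ) (ue : (Bool × (Fin d → Bool)) × Bool) : List Bool :=
  sk n x ue.1.1 ue.2 (List.ofFn ue.1.2)

theorem blk2_injective (n : ℕ) (x : List Bool) (d : ℕ) : Function.Injective (blk2 n x d) := by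
  rintro ⟨⟨b, r⟩, e⟩ ⟨⟨b', r'⟩, e'⟩ h
  obtain ⟨_, _, h1, h2, h3⟩ := sk_inj h
  exact Prod.ext (Prod.ext h1 (List.ofFn_injective h3)) h2

/-- a bound for the length of the strings in the block -/
def bl2 (n : ℕ) (x : List Bool) (d : ℕ) : ℕ := 2 * (2 * n + 3) + 2 * x.length + d + 2

theorem sk_len_le (n : ℕ) (x : List Bool) (b e : Bool) {r : List Bool} {d : ℕ}
    (hr : r.length = d) : (sk n x b e r).length ≤ bl2 n x d := by
  rw [sk_length, bl2, hr]
  have : e.toNat ≤ 1 := Bool.toNat_le e
  omega

theorem blk2_len_le (n : ℕ) (x : List Bool) (d : ℕ) (ue : (Bool × (Fin d → Bool)) × Bool) :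
    (blk2 n x d ue).length ≤ bl2 n x d := sk_len_le n x _ _ (by simp)

theorem blk2_len_ge (n : ℕ) (x : List Bool) (d : ℕ) (ue : (Bool × (Fin d → Bool)) × Bool) :
    x.length ≤ (blk2 n x d ue).length := by
  rw [blk2, sk_length]
  omega

theorem cb_both {V : Type} [Fintype V] (c : V → St) (u : V) :
    (cb c (u, false) = true ∧ cb c (u, true) = true) ↔ c u = bb := by
  have h3 : cb c (u, true) = decide ((c u).2 = 1) := by simp [cb]
  have h4 : cb c (u, false) = decide ((c u).1 = 1) := by simp [cb]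
  rw [h3, h4, decide_eq_true_eq, decide_eq_true_eq, bb, Prod.ext_iff]

/-- a content with a dense side -/
theorem dea2_of_dense {A0 : List Bool → Bool} {n : ℕ} {x : List Bool} {d : ℕ}
    (hd : d = (x.length + 2) ^ 3) {c : Bool × (Fin d → Bool) → St} {b : Bool}
    (hc : ∀ u ∉ side d b, c u ≠ bb)
    (hcard : 3 * (side d b).card < 4 * ((side d b).filter (fun u => c u = bb)).card) :
    DEA2 (modA A0 (blk2 n x d) (cb c)) n x b := by
  have hval : ∀ (b' : Bool) (r : Fin d → Bool),
      both (modA A0 (blk2 n x d) (cb c)) n x b' (List.ofFn r) ↔ c (b', r) = bb := by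
    intro b' r
    rw [← cb_both]
    have h1 : ∀ e : Bool, modA A0 (blk2 n x d) (cb c) (sk n x b' e (List.ofFn r)) =
        cb c ((b', r), e) := fun e => modA_blk (blk2_injective n x d) (cb c) ((b', r), e)
    rw [both, h1, h1]
  constructor
  · rw [← hd, Pr, lt_div_iff₀ (by positivity)]
    have h1 : Nat.card {r : Fin d → Bool //
        both (modA A0 (blk2 n x d) (cb c)) n x b (List.ofFn r)} =
        ((side d b).filter (fun u => c u = bb)).card := by
      rw [Nat.card_eq_fintype_card, Fintype.card_subtype]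
      refine card_bij' (fun r _ => (b, r)) (fun u _ => u.2) ?_ ?_ ?_ ?_
      · intro r hr
        rw [mem_filter, hval] at hr
        exact mem_filter.2 ⟨mem_side.2 rfl, hr.2⟩
      · intro u hu
        rw [mem_filter] at hu
        rw [mem_filter, hval]
        have := mem_side.1 hu.1
        exact ⟨mem_univ _, by rw [← this]; exact hu.2⟩
      · intro r _; rfl
      · intro u hu
        exact Prod.ext (mem_side.1 (mem_filter.1 hu).1).symm rfl
    rw [h1]
    rw [side_card] at hcard
    have h2 : ((3 * 2 ^ d : ℕ) : ℝ) <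
        ((4 * ((side d b).filter (fun u => c u = bb)).card : ℕ) : ℝ) := by exact_mod_cast hcard
    push_cast at h2
    linarith
  · intro r hr
    rw [← hd] at hr
    obtain ⟨r', rfl⟩ : ∃ r' : Fin d → Bool, List.ofFn r' = r := by
      refine ⟨fun j => r.get (Fin.cast hr.symm j), List.ext_get (by simp [hr]) fun j h1 h2 => ?_⟩
      simp
    rw [hval]
    refine hc _ ?_
    rw [mem_side]
    cases b <;> simp

/-- the new state of a content -/
theorem Good2.next {dec : List Bool → Query ι K} {A : List Bool → Bool} {L : ℕ}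
    (hG : Good2 dec A L) (P : GD) {x : List Bool} {d : ℕ} (hL : L ≤ x.length)
    (c : Bool × (Fin d → Bool) → St) {L' : ℕ} (hL' : bl2 (nG P) x d < L') (hLL : L ≤ L')
    (hb : DEA2 (modA A (blk2 (nG P) x d) (cb c)) (nG P) x true ∨
      DEA2 (modA A (blk2 (nG P) x d) (cb c)) (nG P) x false ∨
      Dead2 dec L' (modA A (blk2 (nG P) x d) (cb c)) P) :
    Good2 dec (modA A (blk2 (nG P) x d) (cb c)) L' := by
  refine ⟨fun w hw => ?_, fun P' x' => ?_⟩
  · rw [modA_not]
    · exact hG.dflt w (by omega)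
    · rintro ⟨u, hu⟩
      have := blk2_len_le (nG P) x d u
      rw [hu] at this
      omega
  · by_cases hne : nG P' = nG P ∧ x' = x
    · rw [nG_injective hne.1, hne.2]
      exact hb
    · have hagr : ∀ (b e : Bool) (r : List Bool), r.length = (x'.length + 2) ^ 3 →
          modA A (blk2 (nG P) x d) (cb c) (sk (nG P') x' b e r) = A (sk (nG P') x' b e r) := by
        intro b e r _
        refine modA_not _ ?_
        rintro ⟨u, hu⟩
        obtain ⟨h1, h2, _⟩ := sk_inj hu
        exact hne ⟨h1.symm, h2.symm⟩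
      rcases hG.leg P' x' with h | h | h
      · exact Or.inl (DEA2_congr hagr h)
      · exact Or.inr (Or.inl (DEA2_congr hagr h))
      · refine Or.inr (Or.inr (h.mono (fun w hw => modA_not _ ?_) hLL))
        rintro ⟨u, hu⟩
        have := blk2_len_ge (nG P) x d u
        rw [hu] at this
        omega

/-- the requirement of a content -/
theorem req_of_content2 {dec : List Bool → Query ι K} (hdec : ∀ s, (dec s).m ≤ s.length)
    {A : List Bool → Bool} {P : GD}
    {g : Prog} {e : ℕ} {J : Job} {x : List Bool} {L' : ℕ} (hJ : J.len ≤ L')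
    (hpr : J.pr = P.1) (hk : J.k = P.2.1) (hq : J.q = P.2.2.2) (hg : J.g = g) (hx : J.x = x)
    (hT1 : 3 * (x.length + 2) ^ e ≤ J.T1)
    (hT2 : 3 * (J.len1 + 2) ^ P.2.2.1 ≤ J.T2) (hR : (J.len1 + 2) ^ P.2.1 ≤ J.R)
    (hs : J.s = 4 * J.q ^ 2 * (J.T1 + 1))
    (h : (x ∈ Tst2 A (nG P) ∧ nacc J (OA dec A) < 3 / 4 * Fintype.card J.RS) ∨
      (x ∉ Tst2 A (nG P) ∧ 3 / 4 * Fintype.card J.RS ≤ nacc J (OA dec A)))
    (hst : bl2 (nG P) x ((x.length + 2) ^ 3) < L') :
    ∀ A', Lo L' A A' → ReqA2 dec P g e A' := by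
  intro A' hl ha hred
  have h1 := hred x
  have h2 : J.run (OA dec A') (chi (Lang (OA dec A') P)) =
      Dat.node Dat.leaf (Dat.node (bit (chi (Tst2 A' (nG P)) x)) Dat.leaf) := by
    rw [Job.run, hg, hx]
    exact simN_of_run h1 hT1
  have h3 : nacc J (OA dec A') = nacc J (OA dec A) :=
    nacc_congr fun s hs => hl.oa hdec (by omega)
  have hT : x ∈ Tst2 A' (nG P) ↔ x ∈ Tst2 A (nG P) := by
    have hb : ∀ r : List Bool, r.length = (x.length + 2) ^ 3 →
        (both A' (nG P) x true r ↔ both A (nG P) x true r) := fun r hr =>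
      both_congr fun e => hl _ (lt_of_le_of_lt (sk_len_le _ _ _ _ hr) hst)
    constructor
    · rintro ⟨r, hr, h4⟩
      exact ⟨r, hr, (hb r hr).1 h4⟩
    · rintro ⟨r, hr, h4⟩
      exact ⟨r, hr, (hb r hr).2 h4⟩
  have hgap := gap_of_alive hpr hk hq ha hT2 hR hs
  rw [h3] at hgap
  have hpos : (0 : ℝ) < Fintype.card J.RS := by exact_mod_cast Fintype.card_pos
  rcases h with ⟨h4, h5⟩ | ⟨h4, h5⟩
  · have h6 : chi (Tst2 A' (nG P)) x = true := by
      rw [chi, decide_eq_true_eq]
      exact hT.2 h4
    have h7 : Tru J (OA dec A') P := by rw [Tru, h2, h6]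
    rcases hgap with h8 | h8
    · exact h8.1 h7
    · exact absurd h8.2 (not_le.2 h5)
  · have h6 : chi (Tst2 A' (nG P)) x = false := by
      rw [chi, decide_eq_false_iff_not]
      exact fun h => h4 (hT.1 h)
    have h7 : ¬ Tru J (OA dec A') P := by
      rw [Tru, h2, h6]
      intro h8
      simp [bit] at h8
    rcases hgap with h8 | h8
    · linarith [h8.2]
    · exact h7 h8.1

/-! ### the negated computation -/

section neg

variable {V : Type} [Fintype V] {R : Type} [Fintype R]

/-- the negated computation -/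
def PS.neg (S : PS V R) : PS V R where
  qs := S.qs
  out := fun r x => ¬ S.out r x
  q := S.q
  card_le := S.card_le
  det := fun r x x' h => ⟨(S.det r x x' h).1, not_congr (S.det r x x' h).2⟩

theorem PS.neg_acc (S : PS V R) (x : V → St) : S.neg.acc x = S.rej x := by
  have h : (univ.filter (fun r => S.neg.out r x)) = univ.filter (fun r => ¬ S.out r x) := by
    ext r
    rw [mem_filter, mem_filter]
    exact Iff.rfl
  rw [PS.acc, PS.rej, h]

theorem PS.Gap.neg {S : PS V R} {F : (V → St) → Prop} (hG : S.Gap F) :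
    S.neg.Gap (fun x => ¬ F x) where
  pos := hG.pos
  one := fun x h => by
    rw [S.neg_acc]
    exact hG.rej_zero h
  zero := fun x h => by
    rw [S.neg_acc]
    exact hG.rej_one (not_not.1 h)

end neg

/-! ### numbers -/

theorem pol_s1 : Pol s1 := (Pol.const 8).mul (Pol.id.add (Pol.const 9))

theorem pol_NN : Pol NN := (Pol.const 1000).mul ((Pol.id.add (Pol.const 1)).mul pol_s1)

theorem pol_yy : Pol yy := ((Pol.const 5).mul Pol.id).mul pol_NN

theorem pol_s2 : Pol s2 := (Pol.const 8).mul ((pol_yy.add Pol.id).add (Pol.const 9))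

theorem pol_tt : Pol tt :=
  (((Pol.const 2).mul pol_s2).add ((Pol.id.add (Pol.const 1)).mul pol_s1)).add (Pol.const 1)

theorem pol_need : Pol (fun q => 18 * (5 * q * tt q * NN q)) :=
  (Pol.const 18).mul ((((Pol.const 5).mul Pol.id).mul pol_tt).mul pol_NN)

/-- one stage -/
theorem stage2 [∀ i, Finite (K i)] [∀ i, CharP (K i) 2] {dec : List Bool → Query ι K}
    (hdec : ∀ s, (dec s).m ≤ s.length) (hcK : ∀ s, Nat.card (K (dec s).i) ≤ 2 ^ (s.length + 1))
    {A : List Bool → Bool} {L : ℕ} (hG : Good2 dec A L) (P : GD) (g : Prog) (e : ℕ) :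
    ∃ (A' : List Bool → Bool) (L' : ℕ), L < L' ∧ Good2 dec A' L' ∧ Lo L A A' ∧
      ∀ A'', Lo L' A' A'' → ReqA2 dec P g e A'' := by
  set q := P.2.2.2 with hq
  set k := P.2.1 with hk
  set l := P.2.2.1 with hl
  set T1 : ℕ → ℕ := fun n => 3 * (n + 2) ^ e with hT1
  set Wn : ℕ → ℕ := fun n => (code g).depth + n + 3 + 20 * T1 n with hWn
  set T2 : ℕ → ℕ := fun n => 3 * (Wn n + 2) ^ l with hT2
  set ss : ℕ → ℕ := fun n => 4 * q ^ 2 * (T1 n + 1) with hss
  set ll : ℕ → ℕ := fun n => Wn n + ((code P.1).depth + Wn n + (Wn n + 2) ^ k + 4 + 20 * T2 n)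
    with hll
  set qq : ℕ → ℕ := fun n => T1 n * (ss n * T2 n + 1) * (ll n + 1) with hqq
  have pe : Pol (fun n => (n + 2) ^ e) := ⟨e, fun n => le_rfl⟩
  have pT1 : Pol T1 := (Pol.const 3).mul pe
  have pW : Pol Wn := (((Pol.const _).add Pol.id).add (Pol.const 3)).add ((Pol.const 20).mul pT1)
  have pT2 : Pol T2 := (Pol.const 3).mul ((pW.add (Pol.const 2)).pow l)
  have pss : Pol ss := (Pol.const (4 * q ^ 2)).mul (pT1.add (Pol.const 1))
  have pll : Pol ll := pW.add (((((Pol.const _).add pW).add ((pW.add (Pol.const 2)).pow k)).add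
    (Pol.const 4)).add ((Pol.const 20).mul pT2))
  have pqq : Pol qq := (pT1.mul ((pss.mul pT2).add (Pol.const 1))).mul (pll.add (Pol.const 1))
  obtain ⟨n, hLn, hn⟩ := exists_big (pqq.comp pol_need) L
  set x : List Bool := List.replicate n true with hx
  have hxn : x.length = n := by rw [hx, List.length_replicate]
  set d := (x.length + 2) ^ 3 with hd
  set J : Job := ⟨g, P.1, k, q, x, T1 n, T2 n, (Wn n + 2) ^ k, ss n⟩ with hJ
  have hlen1 : J.len1 = Wn n := by
    rw [Job.len1, hWn]
    simp only [hJ, hxn]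
  have hlen : J.len = ll n := by
    rw [Job.len, hlen1]
  set S := ps dec hcK J A (blk2 (nG P) x d) (blk2_injective (nG P) x d) with hS
  have hSq : S.q = qq n := by
    have : S.q = J.T1 * (J.s * J.T2 + 1) * (J.len + 1) := rfl
    rw [this, hlen]
  set L' := max (bl2 (nG P) x d) J.len + 1 with hL'
  have hLm : L ≤ bl2 (nG P) x d := by rw [bl2]; omega
  have hacc : ∀ c, S.acc c = nacc J (OA dec (modA A (blk2 (nG P) x d) (cb c))) := fun c => by
    unfold PS.acc nacc
    congr
  have hT2' : 3 * (J.len1 + 2) ^ P.2.2.1 ≤ J.T2 := by rw [hlen1]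
  have hR' : (J.len1 + 2) ^ P.2.1 ≤ J.R := by rw [hlen1]
  -- final step for a content
  have fin : ∀ c : Bool × (Fin d → Bool) → St,
      (DEA2 (modA A (blk2 (nG P) x d) (cb c)) (nG P) x true ∨
        DEA2 (modA A (blk2 (nG P) x d) (cb c)) (nG P) x false ∨
        Dead2 dec L' (modA A (blk2 (nG P) x d) (cb c)) P) →
      (∀ A'', Lo L' (modA A (blk2 (nG P) x d) (cb c)) A'' → ReqA2 dec P g e A'') →
      ∃ (A' : List Bool → Bool) (L' : ℕ), L < L' ∧ Good2 dec A' L' ∧ Lo L A A' ∧
      ∀ A'', Lo L' A' A'' → ReqA2 dec P g e A'' := by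
    intro c h1 h2
    refine ⟨_, L', by omega, hG.next P (by omega) c (by omega) (by omega) h1, ?_, h2⟩
    intro w hw
    refine modA_not _ ?_
    rintro ⟨u, hu⟩
    have := blk2_len_ge (nG P) x d u
    rw [hu] at this
    omega
  by_cases hgap : ∀ c, S.acc c ≤ 1 / 4 * Fintype.card J.RS ∨
      3 / 4 * Fintype.card J.RS ≤ S.acc c
  swap
  · -- the machine can be killed
    push Not at hgap
    obtain ⟨c, hp1, hp2⟩ := hgap
    have hdead : Dead2 dec L' (modA A (blk2 (nG P) x d) (cb c)) P := by
      intro A'' hlow ha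
      have h1 := gap_of_alive (J := J) rfl rfl rfl ha hT2' hR' rfl
      have h2 : nacc J (OA dec A'') = S.acc c := by
        rw [hacc]
        exact nacc_congr fun s hs => hlow.oa hdec (by omega)
      rw [h2] at h1
      rcases h1 with h1 | h1
      · exact absurd h1.2 (not_le.2 hp1)
      · exact absurd h1.2 (not_le.2 hp2)
    exact fin c (Or.inr (Or.inr hdead)) (fun A'' hlow ha => absurd ha (hdead A'' hlow))
  · -- the machine keeps its gap at all contents
    set F : (Bool × (Fin d → Bool) → St) → Prop :=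
      fun c => 3 / 4 * (Fintype.card J.RS : ℝ) ≤ S.acc c with hF
    have hGap : S.Gap F := by
      refine ⟨Fintype.card_pos, fun c hc => hc, fun c hc => ?_⟩
      rcases hgap c with h | h
      · exact h
      · exact absurd h hc
    have hW : ∀ b, 18 * (5 * qq n * tt (qq n) * NN (qq n)) < (side d b).card := by
      intro b
      rw [side_card]
      have h0 : 4 * (18 * (5 * qq n * tt (qq n) * NN (qq n))) < 2 ^ (n / 2) := hn
      have h1 : (2 : ℕ) ^ (n / 2) ≤ 2 ^ d := by
        refine Nat.pow_le_pow_right (by norm_num) ?_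
        rw [hd, hxn]
        have : n + 2 ≤ (n + 2) ^ 3 := Nat.le_self_pow (by norm_num) _
        omega
      omega
    have hbl : bl2 (nG P) x ((x.length + 2) ^ 3) < L' := by
      rw [← hd]
      omega
    by_cases hmaj : Ms (fun _ : Bool × (Fin d → Bool) => fp 0) F ≤
        Ms (fun _ : Bool × (Fin d → Bool) => fp 0) (fun c => ¬ F c)
    · obtain ⟨c, hc, hout, hcard⟩ := par_main (W₁ := side d true) hGap hmaj
        (by rw [hSq]; exact hW true)
      have hde := dea2_of_dense (A0 := A) (n := nG P) (x := x) hd hout hcard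
      refine fin c (Or.inl hde) ?_
      refine req_of_content2 hdec (J := J) (by omega) rfl rfl rfl rfl rfl
        (by rw [hxn]) hT2' hR' rfl (Or.inl ⟨hde.mem, ?_⟩) hbl
      have h1 : ¬ 3 / 4 * (Fintype.card J.RS : ℝ) ≤ S.acc c := hc
      rw [hacc] at h1
      exact not_le.1 h1
    · have hmaj' : Ms (fun _ : Bool × (Fin d → Bool) => fp 0) (fun c => ¬ F c) ≤
          Ms (fun _ : Bool × (Fin d → Bool) => fp 0) (fun c => ¬ ¬ F c) := by
        simp only [not_not]
        exact (not_le.1 hmaj).le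
      obtain ⟨c, hc, hout, hcard⟩ := par_main (W₁ := side d false) hGap.neg hmaj'
        (by
          have : S.neg.q = qq n := hSq
          rw [this]
          exact hW false)
      have hde := dea2_of_dense (A0 := A) (n := nG P) (x := x) hd hout hcard
      refine fin c (Or.inr (Or.inl hde)) ?_
      refine req_of_content2 hdec (J := J) (by omega) rfl rfl rfl rfl rfl
        (by rw [hxn]) hT2' hR' rfl (Or.inr ⟨hde.not_mem, ?_⟩) hbl
      rw [not_not] at hc
      have h1 : 3 / 4 * (Fintype.card J.RS : ℝ) ≤ S.acc c := hc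
      rw [hacc] at h1
      exact h1

end Pool.Agent.Helper99.Aff
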